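import Pool.Agent.K6.H95.SP.Tor
import Pool.Agent.TH826.SX.Final
set_option autoImplicit false

/-!
The regulators of the symbols of simplices on the tori near a degenerate fibre.
-/

namespace Pool.Agent.K6.H95.SP

open Pool.Agent.TH826.MK
open Pool.Agent.TH826.SX (pairing_close)

theorem exists_pos_le {α : Type*} [Fintype α] (f : α → ℝ) (hf : ∀ a, 0 < f a) :
    ∃ δ : ℝ, 0 < δ ∧ ∀ a, δ ≤ f a := by
  have h0 : 0 ≤ ∑ a, (f a)⁻¹ := Finset.sum_nonneg fun a _ => (inv_pos.2 (hf a)).le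
  refine ⟨(1 + ∑ a, (f a)⁻¹)⁻¹, by positivity, fun a => ?_⟩
  rw [inv_le_comm₀ (by positivity) (hf a)]
  have h1 := Finset.single_le_sum (f := fun a => (f a)⁻¹) (fun a _ => (inv_pos.2 (hf a)).le)
    (Finset.mem_univ a)
  linarith

theorem exists_ge {α : Type*} [Fintype α] (f : α → ℝ) : ∃ L : ℝ, ∀ a, f a ≤ L := by
  refine ⟨∑ a, |f a|, fun a => (le_abs_self _).trans ?_⟩
  exact Finset.single_le_sum (f := fun a => |f a|) (fun a _ => abs_nonneg _) (Finset.mem_univ a)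

variable {s : ℕ}

/-- the rows of `Z` and a zero row -/
def Zh (Z : Matrix (Fin (s + 1)) (Fin (s + 1)) ℝ) (i : Fin (s + 2)) : Fin (s + 1) → ℝ :=
  Fin.cases 0 (fun l => Z l) i

theorem Zh_col {k : ℝ} {Z : Matrix (Fin (s + 1)) (Fin (s + 1)) ℝ}
    (hZ : ∀ i, Z i 0 = ((i : ℝ) + 1) / k) (i : Fin (s + 2)) : Zh Z i 0 = (i : ℝ) / k := by
  refine Fin.cases ?_ (fun l => ?_) i
  · simp [Zh]
  · show Z l 0 = _
    rw [hZ]
    simp

/-- The matrix of the orders of the symbol of a simplex with the leading terms `x_(t_j)`. -/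
def RS (Z : Matrix (Fin (s + 1)) (Fin (s + 1)) ℝ) (t : Fin (s + 2) → Fin (s + 2)) :
    Matrix (Fin (s + 1)) (Fin (s + 1)) ℝ :=
  Matrix.of fun l => Zh Z (t l.succ) - Zh Z (t 0)

theorem det_RS (Z : Matrix (Fin (s + 1)) (Fin (s + 1)) ℝ) {t : Fin (s + 2) → Fin (s + 2)}
    (ht : ∀ j, t j ≠ 0) : (RS Z t).det = 0 := by
  classical
  obtain ⟨j, j', hne, h⟩ : ∃ j j', j ≠ j' ∧ t j = t j' := by
    have h1 : Fintype.card {i : Fin (s + 2) // i ≠ 0} < Fintype.card (Fin (s + 2)) := by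
      rw [Fintype.card_subtype_compl, Fintype.card_fin]
      simp
    obtain ⟨j, j', h2, h3⟩ := Fintype.exists_ne_map_eq_of_card_lt
      (fun j => (⟨t j, ht j⟩ : {i : Fin (s + 2) // i ≠ 0})) h1
    exact ⟨j, j', h2, congrArg Subtype.val h3⟩
  have key : ∀ l : Fin (s + 1), t l.succ = t 0 → (RS Z t).det = 0 := by
    intro l h2
    refine Matrix.det_eq_zero_of_row_eq_zero l fun j => ?_
    unfold RS
    rw [Matrix.of_apply, h2, sub_self]
    rfl
  rcases Fin.eq_zero_or_eq_succ j with hj | ⟨l, hj⟩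
  · rcases Fin.eq_zero_or_eq_succ j' with hj' | ⟨l', hj'⟩
    · exact absurd (hj.trans hj'.symm) hne
    · exact key l' (by rw [← hj', ← hj]; exact h.symm)
  · rcases Fin.eq_zero_or_eq_succ j' with hj' | ⟨l', hj'⟩
    · exact key l (by rw [← hj', ← hj]; exact h)
    · refine Matrix.det_zero_of_row_eq (i := l) (j := l') (fun e => hne ?_) ?_
      · rw [hj, hj', e]
      · unfold RS
        show Zh Z (t l.succ) - Zh Z (t 0) = Zh Z (t l'.succ) - Zh Z (t 0)
        rw [← hj, ← hj', h]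

theorem near_form {k : ℝ} {Z : Matrix (Fin (s + 1)) (Fin (s + 1)) ℝ} (hk : 0 < k)
    (hZ : ∀ i, Z i 0 = ((i : ℝ) + 1) / k) (a : Fin (s + 2) → ℂ) (i1 : Fin (s + 2))
    (h1 : a i1 ≠ 0) (h2 : ∀ i, a i ≠ 0 → i ≤ i1) {ε : ℝ} (hε : 0 < ε) :
    ∃ δ L0 : ℝ, 0 < δ ∧ ∀ L : ℝ, L0 ≤ L → ∀ z : Fin (s + 1) → (Fin s → ℝ) → ℂ,
      (∀ i, Good (z i)) → (∀ i θ, |Real.log ‖z i θ‖ / L - Z i 0| < δ) →
      (∀ i j θ, ‖lw (z i) j θ - 2 * Real.pi * Complex.I * Z i j.succ‖ < δ) →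
      Good (fun θ => ∑ i, a i * cv z i θ) ∧
      (∀ θ, |Real.log ‖∑ i, a i * cv z i θ‖ / L - Zh Z i1 0| < ε) ∧
      ∀ j θ, ‖lw (fun θ => ∑ i, a i * cv z i θ) j θ -
        2 * Real.pi * Complex.I * Zh Z i1 j.succ‖ < ε := by
  classical
  have hpi := Real.pi_pos
  set Bz : ℝ := ∑ i, ∑ j, |Zh Z i j| with hBz
  have hBz0 : 0 ≤ Bz := Finset.sum_nonneg fun i _ => Finset.sum_nonneg fun j _ => abs_nonneg _
  have hBzi : ∀ i j, |Zh Z i j| ≤ Bz := fun i j =>
    (Finset.single_le_sum (f := fun j => |Zh Z i j|) (fun j _ => abs_nonneg _)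
      (Finset.mem_univ j)).trans
    (Finset.single_le_sum (f := fun i => ∑ j, |Zh Z i j|)
      (fun i _ => Finset.sum_nonneg fun j _ => abs_nonneg _) (Finset.mem_univ i))
  set B : ℝ := 2 * (2 * Real.pi * Bz + 1) with hB
  have hB0 : 0 < B := by positivity
  set c : {i : Fin (s + 2) // i < i1} → ℂ := fun i => a i.1 / a i1 with hc
  set M : ℝ := ∑ i, ‖c i‖ with hM
  have hM0 : 0 ≤ M := Finset.sum_nonneg fun i _ => norm_nonneg _
  set m0 : ℝ := min (1 / 2) (min (ε / 8) (ε / (8 * B))) with hm0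
  have hm0pos : 0 < m0 := by positivity
  set δ : ℝ := min (ε / 4) (min (1 / (4 * k)) 1) with hδ
  have hδpos : 0 < δ := by positivity
  have hδ1 : δ ≤ ε / 4 := min_le_left _ _
  have hδ2 : δ ≤ 1 / (4 * k) := (min_le_right _ _).trans (min_le_left _ _)
  have hδ3 : δ ≤ 1 := (min_le_right _ _).trans (min_le_right _ _)
  refine ⟨δ, 1 + 2 * k * M / m0 + |Real.log ‖a i1‖| / (ε / 4), hδpos,
    fun L hL z hz hzl hzw => ?_⟩
  have hq1 : 0 ≤ 2 * k * M / m0 := by positivity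
  have hq2 : 0 ≤ |Real.log ‖a i1‖| / (ε / 4) := by positivity
  have hL1 : 1 ≤ L := by linarith
  have hL0 : 0 < L := by linarith
  -- all coordinates
  have hcl : ∀ i θ, |Real.log ‖cv z i θ‖ / L - (i : ℝ) / k| < δ := by
    intro i θ
    refine Fin.cases ?_ (fun l => ?_) i
    · rw [cv_zero]
      simp [hδpos]
    · have h3 := hzl l θ
      rw [hZ] at h3
      rw [cv_succ]
      simpa using h3
  have hcw : ∀ i j θ, ‖lw (cv z i) j θ - 2 * Real.pi * Complex.I * Zh Z i j.succ‖ < δ := by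
    intro i j θ
    refine Fin.cases ?_ (fun l => ?_) i
    · rw [cv_zero, lw_const]
      simp [Zh, hδpos]
    · exact hzw l j θ
  have hcg := good_cv hz
  set η : ℝ := Real.exp (-(L / (2 * k))) with hη
  have hη0 : 0 < η := Real.exp_pos _
  have hηL : η ≤ 2 * k / L := by
    have h3 : L / (2 * k) ≤ Real.exp (L / (2 * k)) := by
      have := Real.add_one_le_exp (L / (2 * k))
      linarith
    rw [hη, Real.exp_neg, inv_le_comm₀ (Real.exp_pos _) (by positivity), inv_div]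
    exact h3
  have hMη : M * η ≤ m0 := by
    have h3 : M * η ≤ M * (2 * k / L) := mul_le_mul_of_nonneg_left hηL hM0
    refine h3.trans ?_
    rw [mul_div_assoc', div_le_iff₀ hL0]
    have h4 : 2 * k * M / m0 ≤ L := by linarith
    rw [div_le_iff₀ hm0pos] at h4
    linarith
  have hMη1 : M * η ≤ 1 / 2 := hMη.trans (min_le_left _ _)
  have hMη2 : M * η ≤ ε / 8 := hMη.trans ((min_le_right _ _).trans (min_le_left _ _))
  have hMη3 : M * η ≤ ε / (8 * B) := hMη.trans ((min_le_right _ _).trans (min_le_right _ _))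
  set u : {i : Fin (s + 2) // i < i1} → (Fin s → ℝ) → ℂ := fun i θ => cv z i.1 θ / cv z i1 θ
    with hu
  have hug : ∀ i, Good (u i) := fun i => good_div (hcg i.1) (hcg i1)
  have hun : ∀ i θ, ‖u i θ‖ ≤ η := by
    intro i θ
    have h3 : 0 < ‖u i θ‖ := norm_pos_iff.2 ((hug i).ne_zero θ)
    rw [hη, ← Real.log_le_iff_le_exp h3]
    have h4 : Real.log ‖u i θ‖ = Real.log ‖cv z i.1 θ‖ - Real.log ‖cv z i1 θ‖ := by
      simp only [hu]
      rw [norm_div, Real.log_div (norm_ne_zero_iff.2 ((hcg _).ne_zero θ))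
        (norm_ne_zero_iff.2 ((hcg _).ne_zero θ))]
    have h5 := (abs_lt.1 (hcl i.1 θ)).2
    have h6 := (abs_lt.1 (hcl i1 θ)).1
    have h7 : ((i.1 : ℕ) : ℝ) + 1 ≤ ((i1 : ℕ) : ℝ) := by
      have := i.2
      exact_mod_cast this
    have h8 : Real.log ‖cv z i.1 θ‖ < L * (((i.1 : ℕ) : ℝ) / k + δ) := by
      have h9 : Real.log ‖cv z i.1 θ‖ / L < ((i.1 : ℕ) : ℝ) / k + δ := by linarith
      rw [div_lt_iff₀ hL0] at h9
      linarith
    have h10 : L * (((i1 : ℕ) : ℝ) / k - δ) < Real.log ‖cv z i1 θ‖ := by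
      have h9 : ((i1 : ℕ) : ℝ) / k - δ < Real.log ‖cv z i1 θ‖ / L := by linarith
      rw [lt_div_iff₀ hL0] at h9
      linarith
    rw [h4]
    have h11 : L * (((i.1 : ℕ) : ℝ) / k + δ) - L * (((i1 : ℕ) : ℝ) / k - δ) ≤ -(L / (2 * k)) := by
      have h12 : L * (((i.1 : ℕ) : ℝ) / k + δ) - L * (((i1 : ℕ) : ℝ) / k - δ) =
          -(L * ((((i1 : ℕ) : ℝ) - ((i.1 : ℕ) : ℝ)) / k - 2 * δ)) := by ring
      rw [h12]
      have h13 : 1 / (2 * k) ≤ (((i1 : ℕ) : ℝ) - ((i.1 : ℕ) : ℝ)) / k - 2 * δ := by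
        have h14 : 1 / k ≤ (((i1 : ℕ) : ℝ) - ((i.1 : ℕ) : ℝ)) / k :=
          div_le_div_of_nonneg_right (by linarith) hk.le
        have h15 : 1 / k = 1 / (2 * k) + 2 * (1 / (4 * k)) := by
          field_simp
          norm_num
        linarith
      have h16 := mul_le_mul_of_nonneg_left h13 hL0.le
      have h17 : L * (1 / (2 * k)) = L / (2 * k) := by ring
      linarith
    linarith
  have hnpi : ‖(2 * Real.pi * Complex.I : ℂ)‖ = 2 * Real.pi := by
    rw [norm_mul, norm_mul, Complex.norm_I, Complex.norm_real, Complex.norm_ofNat, mul_one,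
      Real.norm_eq_abs, abs_of_pos Real.pi_pos]
  have hlb : ∀ i j θ, ‖lw (cv z i) j θ‖ ≤ 2 * Real.pi * Bz + 1 := by
    intro i j θ
    have h3 := hcw i j θ
    have h4 := norm_le_norm_add_norm_sub' (lw (cv z i) j θ)
      (2 * Real.pi * Complex.I * Zh Z i j.succ)
    have h5 : ‖(2 * Real.pi * Complex.I * Zh Z i j.succ : ℂ)‖ ≤ 2 * Real.pi * Bz := by
      rw [norm_mul, hnpi, Complex.norm_real, Real.norm_eq_abs]
      exact mul_le_mul_of_nonneg_left (hBzi _ _) (by positivity)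
    linarith
  have hul : ∀ i j θ, ‖lw (u i) j θ‖ ≤ B := by
    intro i j θ
    have h3 : lw (u i) j θ = lw (cv z i.1) j θ - lw (cv z i1) j θ := lw_div (hcg _) (hcg _) j θ
    rw [h3]
    refine (norm_sub_le _ _).trans ?_
    have := hlb i.1 j θ
    have := hlb i1 j θ
    rw [hB]
    linarith
  obtain ⟨g1, g2, g3⟩ := near_one c u hug hη0.le hun hul hMη1
  have hfun : (fun θ => ∑ i, a i * cv z i θ) =
      fun θ => a i1 * (cv z i1 θ * (1 + ∑ i, c i * u i θ)) := by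
    funext θ
    have h3 : ∑ i, a i * cv z i θ = a i1 * cv z i1 θ +
        ∑ i : {i : Fin (s + 2) // i < i1}, a i.1 * cv z i.1 θ := by
      rw [← Finset.add_sum_erase Finset.univ _ (Finset.mem_univ i1)]
      congr 1
      have h4 : ∑ i ∈ Finset.univ.erase i1, a i * cv z i θ =
          ∑ i ∈ Finset.univ.filter (fun i => i < i1), a i * cv z i θ := by
        symm
        refine Finset.sum_subset (fun i hi => ?_) fun i hi hi' => ?_
        · rw [Finset.mem_filter] at hi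
          exact Finset.mem_erase.2 ⟨hi.2.ne, Finset.mem_univ _⟩
        · have h5 : a i = 0 := by
            by_contra h6
            apply hi'
            rw [Finset.mem_filter]
            exact ⟨Finset.mem_univ _, lt_of_le_of_ne (h2 i h6) (Finset.ne_of_mem_erase hi)⟩
          rw [h5, zero_mul]
      rw [h4]
      exact Finset.sum_subtype (Finset.univ.filter (fun i => i < i1)) (fun i => by simp)
        (fun i => a i * cv z i θ)
    rw [h3, mul_add, mul_add, mul_one, Finset.mul_sum, Finset.mul_sum]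
    congr 1
    refine Finset.sum_congr rfl fun i _ => ?_
    have h4 := (hcg i1).ne_zero θ
    simp only [hc, hu]
    field_simp
  have hag : Good (fun _ : Fin s → ℝ => a i1) := good_const h1
  refine ⟨?_, fun θ => ?_, fun j θ => ?_⟩
  · rw [hfun]
    exact hag.mul ((hcg i1).mul g1)
  · have h3 := congrFun hfun θ
    rw [h3, norm_mul, norm_mul, Real.log_mul (norm_ne_zero_iff.2 h1)
      (mul_ne_zero (norm_ne_zero_iff.2 ((hcg i1).ne_zero θ)) (norm_ne_zero_iff.2 (g1.ne_zero θ))),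
      Real.log_mul (norm_ne_zero_iff.2 ((hcg i1).ne_zero θ)) (norm_ne_zero_iff.2 (g1.ne_zero θ)),
      Zh_col hZ]
    have h4 := hcl i1 θ
    have h5 := g2 θ
    have h6 : |Real.log ‖a i1‖ / L| ≤ ε / 4 := by
      rw [abs_div, abs_of_pos hL0, div_le_iff₀ hL0]
      have h7 : |Real.log ‖a i1‖| / (ε / 4) ≤ L := by linarith
      rw [div_le_iff₀ (by positivity)] at h7
      linarith
    have h8 : |Real.log ‖1 + ∑ i, c i * u i θ‖ / L| ≤ ε / 4 := by
      rw [abs_div, abs_of_pos hL0, div_le_iff₀ hL0]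
      have h9 : ε / 4 ≤ ε / 4 * L := le_mul_of_one_le_right (by positivity) hL1
      linarith
    have h10 : (Real.log ‖a i1‖ + (Real.log ‖cv z i1 θ‖ + Real.log ‖1 + ∑ i, c i * u i θ‖)) / L -
        (i1 : ℝ) / k = Real.log ‖a i1‖ / L + (Real.log ‖cv z i1 θ‖ / L - (i1 : ℝ) / k) +
          Real.log ‖1 + ∑ i, c i * u i θ‖ / L := by ring
    rw [h10]
    have a1 := abs_lt.1 h4
    have a2 := abs_le.1 h6
    have a3 := abs_le.1 h8
    rw [abs_lt]
    constructor <;> linarith [a1.1, a1.2, a2.1, a2.2, a3.1, a3.2]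
  · rw [hfun, lw_mul hag ((hcg i1).mul g1), lw_mul (hcg i1) g1, lw_const, zero_add]
    have h3 : lw (cv z i1) j θ + lw (fun θ => 1 + ∑ i, c i * u i θ) j θ -
        2 * Real.pi * Complex.I * Zh Z i1 j.succ =
        (lw (cv z i1) j θ - 2 * Real.pi * Complex.I * Zh Z i1 j.succ) +
          lw (fun θ => 1 + ∑ i, c i * u i θ) j θ := by ring
    have h4 : lw (fun θ => cv z i1 θ) j θ = lw (cv z i1) j θ := rfl
    rw [h3]
    refine lt_of_le_of_lt (norm_add_le _ _) ?_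
    have h5 := hcw i1 j θ
    have h6 := g3 j θ
    have h7 : 2 * (M * η * B) ≤ ε / 4 := by
      have h8 : M * η * B ≤ ε / (8 * B) * B := mul_le_mul_of_nonneg_right hMη3 hB0.le
      have h9 : ε / (8 * B) * B = ε / 8 := by field_simp
      linarith
    linarith

theorem exists_top {S : Fin (s + 2) → Fin (s + 2) → ℂ} (hS : ∀ j, ∃ i, i ≠ 0 ∧ S j i ≠ 0) :
    ∃ t : Fin (s + 2) → Fin (s + 2), (∀ j, t j ≠ 0) ∧ ∀ j, S j (t j) ≠ 0 ∧
      ∀ i, S j i ≠ 0 → i ≤ t j := by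
  classical
  have h : ∀ j, ∃ t, t ≠ 0 ∧ S j t ≠ 0 ∧ ∀ i, S j i ≠ 0 → i ≤ t := by
    intro j
    obtain ⟨i, hi, hi'⟩ := hS j
    obtain ⟨t, ht1, ht2⟩ := Finset.exists_max_image (Finset.univ.filter fun i => S j i ≠ 0)
      (fun i => i) ⟨i, by simp [hi']⟩
    refine ⟨t, fun h0 => ?_, (Finset.mem_filter.1 ht1).2, fun i' h => ht2 i' (by simp [h])⟩
    have h3 : i ≤ t := ht2 i (by simp [hi'])
    rw [h0] at h3
    exact hi (le_antisymm h3 (Fin.zero_le _))
  choose t h1 h2 using h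
  exact ⟨t, h1, h2⟩

/-- The regulators near a degenerate fibre. -/
theorem exists_cusp {P : Matrix (Fin (s + 2)) (Fin (s + 2)) ℂ} {top : Fin (s + 2) → Fin (s + 2)}
    (htop : ∀ j, P j (top j) ≠ 0 ∧ ∀ i, P j i ≠ 0 → i ≤ top j)
    (hpos : ∑ i : Fin (s + 2), (i : ℤ) < ∑ j, (top j : ℤ)) :
    ∃ D : ℝ, D ≠ 0 ∧ ∀ (ι : Type) [Fintype ι] (S : ι → Fin (s + 2) → Fin (s + 2) → ℂ),
      (∀ a j, ∃ i, i ≠ 0 ∧ S a j i ≠ 0) → ∀ ε : ℝ, 0 < ε → ∃ R : ℝ, 1 < R ∧ ∀ t : ℂ, R ≤ ‖t‖ →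
        ∃ z : Fin (s + 1) → (Fin s → ℝ) → ℂ, (∀ i, Good (z i)) ∧ (∀ i, Per (z i)) ∧
          (∀ θ, ∏ j, ∑ i, P j i * cv z i θ = t * ∏ i, z i θ) ∧
          |pairing z / Real.log ‖t‖ - D| ≤ ε ∧
          ∀ a, (∀ j, Good fun θ => ∑ i, S a j i * cv z i θ) ∧
            |pairing (fun (l : Fin (s + 1)) θ => (∑ i, S a l.succ i * cv z i θ) /
              (∑ i, S a 0 i * cv z i θ)) / Real.log ‖t‖| ≤ ε := by
  obtain ⟨k, Z, hk, hZ, hdet, hδ⟩ := exists_tor htop hpos
  refine ⟨(2 * Real.pi) ^ s * Z.det, mul_ne_zero (by positivity) hdet, fun ι _ S hS ε hε => ?_⟩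
  choose t ht0 ht using fun a => exists_top (hS a)
  obtain ⟨δ0, hδ0, h0⟩ := pairing_close Z hε
  choose δ1 hδ1 h1 using fun a => pairing_close (RS Z (t a)) hε
  choose δ2 L2 hδ2 h2 using fun p : ι × Fin (s + 2) =>
    near_form hk hZ (S p.1 p.2) (t p.1 p.2) (ht p.1 p.2).1 (ht p.1 p.2).2
      (show 0 < δ1 p.1 / 2 by have := hδ1 p.1; linarith)
  obtain ⟨δ, hδpos, hδle⟩ := exists_pos_le (fun p : Option (ι × Fin (s + 2)) => p.elim δ0 δ2)
    (fun p => by
      cases p with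
      | none => exact hδ0
      | some p => exact hδ2 p)
  obtain ⟨L, hL⟩ := exists_ge L2
  obtain ⟨R, hR1, hR⟩ := hδ δ hδpos
  refine ⟨max R (Real.exp (|L| + 1)), lt_of_lt_of_le (Real.one_lt_exp_iff.2 (by positivity))
    (le_max_right _ _), fun t' ht' => ?_⟩
  obtain ⟨z, hz1, hz2, hz3, hz4, hz5⟩ := hR t' ((le_max_left _ _).trans ht')
  have htn : 0 < ‖t'‖ := (Real.exp_pos _).trans_le ((le_max_right _ _).trans ht')
  have hlog : |L| + 1 ≤ Real.log ‖t'‖ := by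
    rw [Real.le_log_iff_exp_le htn]
    exact (le_max_right _ _).trans ht'
  have hlogpos : 0 < Real.log ‖t'‖ := by
    have := abs_nonneg L
    linarith
  have hlogL : ∀ p, L2 p ≤ Real.log ‖t'‖ := fun p => by
    have h3 := hL p
    have h4 := le_abs_self L
    linarith
  refine ⟨z, hz1, hz2, hz5, ?_, fun a => ?_⟩
  · exact h0 z _ hlogpos.ne' hz1 (fun i θ => (hz3 i θ).trans_le (hδle none))
      (fun i j θ => (hz4 i j θ).trans_le (hδle none))
  · have hf := fun j => h2 (a, j) _ (hlogL (a, j)) z hz1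
      (fun i θ => (hz3 i θ).trans_le (hδle (some (a, j))))
      (fun i j' θ => (hz4 i j' θ).trans_le (hδle (some (a, j))))
    have hg : ∀ j, Good fun θ => ∑ i, S a j i * cv z i θ := fun j => (hf j).1
    refine ⟨hg, ?_⟩
    have h3 := h1 a (fun (l : Fin (s + 1)) θ => (∑ i, S a l.succ i * cv z i θ) /
      (∑ i, S a 0 i * cv z i θ)) _ hlogpos.ne' (fun l => good_div (hg l.succ) (hg 0))
      (fun l θ => ?_) (fun l j θ => ?_)
    · rw [det_RS Z (ht0 a), mul_zero, sub_zero] at h3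
      exact h3
    · have e1 := (hf l.succ).2.1 θ
      have e2 := (hf 0).2.1 θ
      simp only at e1 e2
      have e3 : Real.log ‖(∑ i, S a l.succ i * cv z i θ) / (∑ i, S a 0 i * cv z i θ)‖ =
          Real.log ‖∑ i, S a l.succ i * cv z i θ‖ - Real.log ‖∑ i, S a 0 i * cv z i θ‖ := by
        rw [norm_div, Real.log_div (norm_ne_zero_iff.2 ((hg l.succ).ne_zero θ))
          (norm_ne_zero_iff.2 ((hg 0).ne_zero θ))]
      have e4 : RS Z (t a) l 0 = Zh Z (t a l.succ) 0 - Zh Z (t a 0) 0 := rfl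
      rw [e3, e4]
      have a1 := abs_lt.1 e1
      have a2 := abs_lt.1 e2
      rw [sub_div, abs_lt]
      constructor <;> linarith [a1.1, a1.2, a2.1, a2.2]
    · have e1 := (hf l.succ).2.2 j θ
      have e2 := (hf 0).2.2 j θ
      simp only at e1 e2
      have e4 : ((RS Z (t a) l j.succ : ℝ) : ℂ) =
          (Zh Z (t a l.succ) j.succ : ℂ) - (Zh Z (t a 0) j.succ : ℂ) := by
        have e5 : RS Z (t a) l j.succ = Zh Z (t a l.succ) j.succ - Zh Z (t a 0) j.succ := rfl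
        rw [e5]
        push_cast
        rfl
      rw [e4, lw_div (hg l.succ) (hg 0)]
      have e6 : lw (fun θ => ∑ i, S a l.succ i * cv z i θ) j θ -
          lw (fun θ => ∑ i, S a 0 i * cv z i θ) j θ - 2 * Real.pi * Complex.I *
            ((Zh Z (t a l.succ) j.succ : ℂ) - (Zh Z (t a 0) j.succ : ℂ)) =
          (lw (fun θ => ∑ i, S a l.succ i * cv z i θ) j θ -
            2 * Real.pi * Complex.I * (Zh Z (t a l.succ) j.succ : ℂ)) -
          (lw (fun θ => ∑ i, S a 0 i * cv z i θ) j θ -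
            2 * Real.pi * Complex.I * (Zh Z (t a 0) j.succ : ℂ)) := by ring
      rw [e6]
      refine lt_of_le_of_lt (norm_sub_le _ _) ?_
      linarith

end Pool.Agent.K6.H95.SP
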