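import Pool.Agent.K6.H95.SP.Unram
import Pool.Agent.TH826.MK.Torus
set_option autoImplicit false

/-!
The hypersurfaces `λ ∏_j (M a)_j = ∏_i a_i` in projective space, and tori in them.
-/

namespace Pool.Agent.K6.H95.SP

open scoped WithZero

open Pool.Agent.TH826.MK (KQ symb Unramified unitPart Torus val_le_one_of_integral)

section ring

variable {K : Type*} [Field K] {s : ℕ}

/-- The homogeneous coordinates `1, z_0, ..., z_s` (the variable `z_l` is `some l`). -/
noncomputable def hX (K : Type*) [Field K] {s : ℕ} (i : Fin (s + 2)) :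
    MvPolynomial (Option (Fin (s + 1))) K :=
  Fin.cases 1 (fun l => MvPolynomial.X (some l)) i

/-- The linear form `∑_i Q_{j,i} a_i`, `a = (1, z_0, ..., z_s)`. -/
noncomputable def frm (Q : Matrix (Fin (s + 2)) (Fin (s + 2)) K) (j : Fin (s + 2)) :
    MvPolynomial (Option (Fin (s + 1))) K :=
  ∑ i, MvPolynomial.C (Q j i) * hX K i

/-- The polynomial `y ∏_l z_l - 1` (`y` is the variable `none`). -/
noncomputable def eqA (K : Type*) [Field K] (s : ℕ) : MvPolynomial (Option (Fin (s + 1))) K :=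
  MvPolynomial.X none * ∏ l, MvPolynomial.X (some l) - 1

/-- The polynomial `λ y ∏_j (M a)_j - 1`. -/
noncomputable def eqB (lam : K) (M : Matrix (Fin (s + 2)) (Fin (s + 2)) K) :
    MvPolynomial (Option (Fin (s + 1))) K :=
  MvPolynomial.C lam * MvPolynomial.X none * ∏ j, frm M j - 1

/-- The coordinate ring of the hypersurface `λ ∏_j (M a)_j = ∏_i a_i` in the part `∏_i a_i ≠ 0` of
the projective space of dimension `s + 1` with the homogeneous coordinates `a_0, ..., a_(s+1)`
(the affine coordinates are `z_l = a_(l+1) / a_0`, and `y` is the inverse of their product). -/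
def PRing (lam : K) (M : Matrix (Fin (s + 2)) (Fin (s + 2)) K) : Type _ :=
  MvPolynomial (Option (Fin (s + 1))) K ⧸ Ideal.span {eqA K s, eqB lam M}

variable (lam : K) (M : Matrix (Fin (s + 2)) (Fin (s + 2)) K)

noncomputable instance : CommRing (PRing lam M) :=
  Ideal.Quotient.commRing (Ideal.span {eqA K s, eqB lam M})

/-- The polynomials as functions on the hypersurface. -/
noncomputable def fpol : MvPolynomial (Option (Fin (s + 1))) K →+* PRing lam M :=
  Ideal.Quotient.mk (Ideal.span {eqA K s, eqB lam M})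

/-- The constants. -/
noncomputable def cst : K →+* PRing lam M := (fpol lam M).comp MvPolynomial.C

/-- The function `a_i / a_0`. -/
noncomputable def fa (i : Fin (s + 2)) : PRing lam M := fpol lam M (hX K i)

/-- The function `(Q a)_j / a_0`. -/
noncomputable def fq (Q : Matrix (Fin (s + 2)) (Fin (s + 2)) K) (j : Fin (s + 2)) : PRing lam M :=
  fpol lam M (frm Q j)

theorem fa_zero : fa lam M 0 = 1 := by
  unfold fa hX
  simp

theorem fq_eq (Q : Matrix (Fin (s + 2)) (Fin (s + 2)) K) (j : Fin (s + 2)) :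
    fq lam M Q j = ∑ i, cst lam M (Q j i) * fa lam M i := by
  unfold fq frm
  rw [map_sum]
  refine Finset.sum_congr rfl fun i _ => ?_
  rw [map_mul]
  rfl

theorem fpol_eqA : fpol lam M (eqA K s) = 0 :=
  Ideal.Quotient.eq_zero_iff_mem.2 (Ideal.subset_span (by simp))

theorem fpol_eqB : fpol lam M (eqB lam M) = 0 :=
  Ideal.Quotient.eq_zero_iff_mem.2 (Ideal.subset_span (by simp))

theorem prod_a : fpol lam M (MvPolynomial.X none) * ∏ i, fa lam M i = 1 := by
  have h := fpol_eqA lam M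
  unfold eqA at h
  rw [map_sub, map_mul, map_one, map_prod, sub_eq_zero] at h
  rw [Fin.prod_univ_succ, fa_zero, one_mul]
  exact h

theorem prod_b : cst lam M lam * fpol lam M (MvPolynomial.X none) *
    ∏ j, fq lam M M j = 1 := by
  have h := fpol_eqB lam M
  unfold eqB at h
  rw [map_sub, map_mul, map_mul, map_one, map_prod, sub_eq_zero] at h
  exact h

/-- the equation of the hypersurface -/
theorem prod_eq : cst lam M lam * ∏ j, fq lam M M j = ∏ i, fa lam M i := by
  have h1 := prod_a lam M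
  have h2 := prod_b lam M
  linear_combination (∏ i, fa lam M i) * h2 - (cst lam M lam * ∏ j, fq lam M M j) * h1

theorem isUnit_fa (i : Fin (s + 2)) : IsUnit (fa lam M i) := by
  refine isUnit_of_dvd_one ?_
  rw [← prod_a lam M]
  refine Dvd.dvd.mul_left ?_ _
  exact Finset.dvd_prod_of_mem (fun i => fa lam M i) (Finset.mem_univ i)

theorem isUnit_fb (j : Fin (s + 2)) : IsUnit (fq lam M M j) := by
  refine isUnit_of_dvd_one ?_
  rw [← prod_b lam M]
  refine Dvd.dvd.mul_left ?_ _
  exact Finset.dvd_prod_of_mem (fun j => fq lam M M j) (Finset.mem_univ j)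

/-- The unit `a_i / a_0`. -/
noncomputable def ua (i : Fin (s + 2)) : (PRing lam M)ˣ := (isUnit_fa lam M i).unit

/-- The unit `(M a)_j / a_0`. -/
noncomputable def ub (j : Fin (s + 2)) : (PRing lam M)ˣ := (isUnit_fb lam M j).unit

theorem coe_ua (i : Fin (s + 2)) : (ua lam M i : PRing lam M) = fa lam M i := rfl

theorem coe_ub (j : Fin (s + 2)) : (ub lam M j : PRing lam M) = fq lam M M j := rfl

/-- The entries `u_(l+1) / u_0` of the symbol of a simplex. -/
def ent {A : Type*} [CommRing A] {m : ℕ} (u : Fin (m + 1) → Aˣ) (l : Fin m) : Aˣ := u l.succ / u 0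

end ring

section unram

variable {K L : Type*} [Field K] [Field L] {s : ℕ} {lam : K}
  {M N : Matrix (Fin (s + 2)) (Fin (s + 2)) K} (f : PRing lam M →+* L)

/-- The general criterion. -/
theorem symb_ent_mem {P : Matrix (Fin (s + 2)) (Fin (s + 2)) K} (hP : Hall P) (hT : Tors P)
    (u : Fin (s + 2) → (PRing lam M)ˣ) {t : K} (ht : IsIntegral ℤ t)
    (h : ∏ j, ∑ i, cst lam M (P j i) * (u i : PRing lam M) = cst lam M t * ∏ i, (u i : PRing lam M)) :
    KQ.map (s + 1) f (symb (ent u)) ∈ Unramified L (s + 1) := by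
  rw [KQ.map_symb]
  unfold Unramified
  simp only [Submodule.mem_iInf]
  intro v _
  have e : (fun l => Units.map (f : PRing lam M →* L) (ent u l)) =
      fun l : Fin (s + 1) => Units.map (f : PRing lam M →* L) (u l.succ) /
        Units.map (f : PRing lam M →* L) (u 0) := by
    funext l
    unfold ent
    rw [map_div]
  rw [e]
  refine mem_unitPart_simplex (f.comp (cst lam M)) v (by omega) hP hT
    (fun i => Units.map (f : PRing lam M →* L) (u i))
    (fun j => ∑ i, (f.comp (cst lam M)) (P j i) * (Units.map (f : PRing lam M →* L) (u i) : Lˣ))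
    (fun j => rfl) ?_
  have h1 := congrArg (fun x => v (f x)) h
  simp only [map_prod, map_sum, map_mul] at h1
  have h2 : v (f (cst lam M t)) ≤ 1 :=
    val_le_one_of_integral v (map_isIntegral_int (f.comp (cst lam M)) ht)
  calc ∏ j, v (∑ i, (f.comp (cst lam M)) (P j i) *
        (Units.map (f : PRing lam M →* L) (u i) : Lˣ)) =
        v (f (cst lam M t)) * ∏ i, v (f (u i : PRing lam M)) := h1
    _ ≤ 1 * ∏ i, v (f (u i : PRing lam M)) := mul_le_mul_left h2 _
    _ = _ := one_mul _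

/-- the symbol of the first simplex -/
theorem unram_a (hM : Hall M) (hT : Tors M) (hlam : lam ≠ 0) (hi : IsIntegral ℤ lam⁻¹) :
    KQ.map (s + 1) f (symb (ent (ua lam M))) ∈ Unramified L (s + 1) := by
  refine symb_ent_mem f hM hT (ua lam M) hi ?_
  have h1 := prod_eq lam M
  have h2 : cst lam M lam⁻¹ * cst lam M lam = 1 := by
    rw [← map_mul, inv_mul_cancel₀ hlam, map_one]
  have h3 : ∏ j, ∑ i, cst lam M (M j i) * (ua lam M i : PRing lam M) = ∏ j, fq lam M M j :=
    Finset.prod_congr rfl fun j _ => (fq_eq lam M M j).symm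
  have h4 : ∏ i, (ua lam M i : PRing lam M) = ∏ i, fa lam M i := rfl
  rw [h3, h4, ← h1, ← mul_assoc, h2, one_mul]

theorem sum_frm (Q R : Matrix (Fin (s + 2)) (Fin (s + 2)) K) (i : Fin (s + 2)) :
    ∑ j, MvPolynomial.C (Q i j) * frm R j = frm (Q * R) i := by
  unfold frm
  have h : ∀ j, MvPolynomial.C (Q i j) * ∑ k, MvPolynomial.C (R j k) * hX K k =
      ∑ k, MvPolynomial.C (Q i j) * (MvPolynomial.C (R j k) * hX K k) := fun j =>
    Finset.mul_sum _ _ _
  rw [Finset.sum_congr rfl fun j _ => h j, Finset.sum_comm]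
  refine Finset.sum_congr rfl fun k _ => ?_
  rw [Matrix.mul_apply, map_sum, Finset.sum_mul]
  refine Finset.sum_congr rfl fun j _ => ?_
  rw [map_mul, mul_assoc]

theorem sum_fq (Q R : Matrix (Fin (s + 2)) (Fin (s + 2)) K) (i : Fin (s + 2)) :
    ∑ j, cst lam M (Q i j) * fq lam M R j = fq lam M (Q * R) i := by
  unfold fq
  rw [← sum_frm, map_sum]
  refine Finset.sum_congr rfl fun j _ => ?_
  rw [map_mul]
  rfl

theorem fq_smul_one (c : K) (i : Fin (s + 2)) :
    fq lam M (c • (1 : Matrix (Fin (s + 2)) (Fin (s + 2)) K)) i = cst lam M c * fa lam M i := by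
  rw [fq_eq, Finset.sum_eq_single i]
  · rw [Matrix.smul_apply, Matrix.one_apply_eq, smul_eq_mul, mul_one]
  · intro j _ hj
    rw [Matrix.smul_apply, Matrix.one_apply_ne (Ne.symm hj), smul_zero, map_zero, zero_mul]
  · intro h
    exact absurd (Finset.mem_univ i) h

/-- the symbol of the second simplex -/
theorem unram_b {δ : K} (hN : Hall N) (hT : Tors N) (hNM : N * M = δ • 1)
    (hi : IsIntegral ℤ (δ ^ (s + 2) * lam)) :
    KQ.map (s + 1) f (symb (ent (ub lam M))) ∈ Unramified L (s + 1) := by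
  refine symb_ent_mem f hN hT (ub lam M) hi ?_
  have h3 : ∀ i, ∑ j, cst lam M (N i j) * (ub lam M j : PRing lam M) =
      cst lam M δ * fa lam M i := by
    intro i
    have h4 := sum_fq (lam := lam) (M := M) N M i
    rw [hNM, fq_smul_one] at h4
    exact h4
  rw [Finset.prod_congr rfl fun i _ => h3 i, Finset.prod_mul_distrib, Finset.prod_const,
    Finset.card_univ, Fintype.card_fin, ← prod_eq lam M, map_mul, map_pow, mul_assoc]
  rfl

end unram

section Ev

variable {K : Type*} [Field K] {s d : ℕ} {σ : K →+* ℂ} {lam : K}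
  {M : Matrix (Fin (s + 2)) (Fin (s + 2)) K}

/-- The complex points, in homogeneous coordinates. -/
structure GoodPt (σ : K →+* ℂ) (lam : K) (M : Matrix (Fin (s + 2)) (Fin (s + 2)) K)
    (a : Fin (s + 2) → ℂ) : Prop where
  ne : ∀ i, a i ≠ 0
  eq : σ lam * ∏ j, ∑ i, σ (M j i) * a i = ∏ i, a i

/-- the values of the variables -/
noncomputable def vals (a : Fin (s + 2) → ℂ) : Option (Fin (s + 1)) → ℂ :=
  fun o => o.elim (∏ l : Fin (s + 1), (a l.succ / a 0))⁻¹ fun l => a l.succ / a 0

theorem eval_hX {a : Fin (s + 2) → ℂ} (h0 : a 0 ≠ 0) (i : Fin (s + 2)) :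
    MvPolynomial.eval₂Hom σ (vals a) (hX K i) = a i / a 0 := by
  unfold hX
  refine Fin.cases ?_ (fun l => ?_) i
  · simp [h0]
  · simp [vals]

theorem eval_frm {a : Fin (s + 2) → ℂ} (h0 : a 0 ≠ 0)
    (Q : Matrix (Fin (s + 2)) (Fin (s + 2)) K) (j : Fin (s + 2)) :
    MvPolynomial.eval₂Hom σ (vals a) (frm Q j) = (∑ i, σ (Q j i) * a i) / a 0 := by
  unfold frm
  rw [map_sum, Finset.sum_div]
  refine Finset.sum_congr rfl fun i _ => ?_
  rw [map_mul, eval_hX h0, mul_div_assoc]
  congr 1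
  simp

theorem GoodPt.evalA {a : Fin (s + 2) → ℂ} (ha : GoodPt σ lam M a) :
    MvPolynomial.eval₂Hom σ (vals a) (eqA K s) = 0 := by
  unfold eqA
  have h : ∏ l : Fin (s + 1), (a l.succ / a 0) ≠ 0 :=
    Finset.prod_ne_zero_iff.2 fun l _ => div_ne_zero (ha.ne _) (ha.ne _)
  simp only [map_sub, map_mul, map_prod, map_one, MvPolynomial.coe_eval₂Hom, MvPolynomial.eval₂_X]
  show (∏ l : Fin (s + 1), (a l.succ / a 0))⁻¹ * ∏ l : Fin (s + 1), (a l.succ / a 0) - 1 = 0
  rw [inv_mul_cancel₀ h, sub_self]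

theorem GoodPt.evalB {a : Fin (s + 2) → ℂ} (ha : GoodPt σ lam M a) :
    MvPolynomial.eval₂Hom σ (vals a) (eqB lam M) = 0 := by
  unfold eqB
  have h0 := ha.ne 0
  have h : ∏ l : Fin (s + 1), a l.succ ≠ 0 := Finset.prod_ne_zero_iff.2 fun l _ => ha.ne _
  rw [map_sub, map_mul, map_mul, map_prod, map_one, Finset.prod_congr rfl fun j _ =>
    eval_frm (σ := σ) h0 M j, Finset.prod_div_distrib, Finset.prod_const, Finset.card_univ,
    Fintype.card_fin]
  have h1 : MvPolynomial.eval₂Hom σ (vals a) (MvPolynomial.C lam) = σ lam := by simp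
  have h2 : MvPolynomial.eval₂Hom σ (vals a) (MvPolynomial.X none) =
      (∏ l : Fin (s + 1), (a l.succ / a 0))⁻¹ := by simp [vals]
  have h3 := ha.eq
  rw [Fin.prod_univ_succ (fun i => a i)] at h3
  rw [h1, h2, Finset.prod_div_distrib, Finset.prod_const, Finset.card_univ, Fintype.card_fin,
    inv_div, sub_eq_zero]
  have h4 : σ lam * (a 0 ^ (s + 1) / ∏ l : Fin (s + 1), a l.succ) *
      ((∏ j, ∑ i, σ (M j i) * a i) / a 0 ^ (s + 2)) =
      (a 0 ^ (s + 1) / ∏ l : Fin (s + 1), a l.succ) *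
        ((σ lam * ∏ j, ∑ i, σ (M j i) * a i) / a 0 ^ (s + 2)) := by ring
  rw [h4, h3]
  field_simp
  ring

/-- evaluation of the regular functions at a complex point of the hypersurface -/
noncomputable def evX {a : Fin (s + 2) → ℂ} (ha : GoodPt σ lam M a) : PRing lam M →+* ℂ :=
  Ideal.Quotient.lift (Ideal.span {eqA K s, eqB lam M}) (MvPolynomial.eval₂Hom σ (vals a)) (by
    intro p hp
    have h1 : Ideal.span {eqA K s, eqB lam M} ≤
        RingHom.ker (MvPolynomial.eval₂Hom σ (vals a)) := by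
      rw [Ideal.span_le]
      rintro q (rfl | rfl)
      · exact ha.evalA
      · exact ha.evalB
    exact h1 hp)

theorem evX_fpol {a : Fin (s + 2) → ℂ} (ha : GoodPt σ lam M a)
    (p : MvPolynomial (Option (Fin (s + 1))) K) :
    evX ha (fpol lam M p) = MvPolynomial.eval₂Hom σ (vals a) p :=
  Ideal.Quotient.lift_mk _ _ _

theorem evX_cst {a : Fin (s + 2) → ℂ} (ha : GoodPt σ lam M a) (c : K) :
    evX ha (cst lam M c) = σ c := by
  show evX ha (fpol lam M (MvPolynomial.C c)) = _
  rw [evX_fpol]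
  simp

theorem evX_fa {a : Fin (s + 2) → ℂ} (ha : GoodPt σ lam M a) (i : Fin (s + 2)) :
    evX ha (fa lam M i) = a i / a 0 := by
  unfold fa
  rw [evX_fpol, eval_hX (ha.ne 0)]

theorem evX_fq {a : Fin (s + 2) → ℂ} (ha : GoodPt σ lam M a)
    (Q : Matrix (Fin (s + 2)) (Fin (s + 2)) K) (j : Fin (s + 2)) :
    evX ha (fq lam M Q j) = (∑ i, σ (Q j i) * a i) / a 0 := by
  unfold fq
  rw [evX_fpol, eval_frm (ha.ne 0)]

theorem evX_congr {a b : Fin (s + 2) → ℂ} (ha : GoodPt σ lam M a) (hb : GoodPt σ lam M b)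
    (h : a = b) : evX ha = evX hb := by
  subst h
  rfl

theorem contDiff_evX {a : (Fin d → ℝ) → (Fin (s + 2) → ℂ)} (hc : ContDiff ℝ 2 a)
    (ha : ∀ θ, GoodPt σ lam M (a θ)) (h : PRing lam M) :
    ContDiff ℝ 2 fun θ => evX (ha θ) h := by
  have hak : ∀ i, ContDiff ℝ 2 fun θ => a θ i := fun i => contDiff_pi.1 hc i
  have hq : ∀ l : Fin (s + 1), ContDiff ℝ 2 fun θ => a θ l.succ / a θ 0 := fun l => by
    simp only [div_eq_mul_inv]
    exact (hak _).mul ((hak 0).inv fun θ => (ha θ).ne 0)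
  have hp : ContDiff ℝ 2 fun θ => (∏ l : Fin (s + 1), (a θ l.succ / a θ 0))⁻¹ := by
    refine ContDiff.inv ?_ fun θ => ?_
    · exact contDiff_prod fun l _ => hq l
    · exact Finset.prod_ne_zero_iff.2 fun l _ => div_ne_zero ((ha θ).ne _) ((ha θ).ne _)
  have hv : ∀ o, ContDiff ℝ 2 fun θ => vals (a θ) o := by
    intro o
    cases o with
    | none => exact hp
    | some l => exact hq l
  obtain ⟨p, hp⟩ := Ideal.Quotient.mk_surjective h
  have hmv : ∀ p : MvPolynomial (Option (Fin (s + 1))) K,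
      ContDiff ℝ 2 fun θ => MvPolynomial.eval₂Hom σ (vals (a θ)) p := by
    intro p
    induction p using MvPolynomial.induction_on with
    | C c => simpa using contDiff_const
    | add p q hp hq => simpa using hp.add hq
    | mul_X p k hp => simpa using hp.mul (hv k)
  have e : (fun θ => evX (ha θ) h) = fun θ => MvPolynomial.eval₂Hom σ (vals (a θ)) p := by
    funext θ
    rw [← hp]
    exact evX_fpol (ha θ) p
  rw [e]
  exact hmv p

/-- a torus in the hypersurface -/
noncomputable def mkT (a : (Fin d → ℝ) → (Fin (s + 2) → ℂ)) (hc : ContDiff ℝ 2 a)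
    (hp : ∀ θ i, a (θ + Pi.single i 1) = a θ)
    (ha : ∀ θ, GoodPt σ lam M (a θ)) : Torus (PRing lam M) d where
  e θ := evX (ha θ)
  smooth h := contDiff_evX hc ha h
  periodic θ i := evX_congr _ _ (hp θ i)

variable (a : (Fin d → ℝ) → (Fin (s + 2) → ℂ)) (hc : ContDiff ℝ 2 a)
  (hp : ∀ θ i, a (θ + Pi.single i 1) = a θ) (ha : ∀ θ, GoodPt σ lam M (a θ))

/-- The entries of the symbol of a simplex on the torus. -/
theorem mkT_ent (u : Fin (s + 2) → (PRing lam M)ˣ) (Q : Matrix (Fin (s + 2)) (Fin (s + 2)) K)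
    (hu : ∀ j, (u j : PRing lam M) = fq lam M Q j) (l : Fin (s + 1)) :
    (mkT a hc hp ha).fn (ent u l : PRing lam M) =
      fun θ => (∑ i, σ (Q l.succ i) * a θ i) / (∑ i, σ (Q 0 i) * a θ i) := by
  funext θ
  have e : ∀ j, evX (ha θ) (u j : PRing lam M) = (∑ i, σ (Q j i) * a θ i) / a θ 0 := by
    intro j
    rw [hu, evX_fq]
  have hne : ∀ j, evX (ha θ) (u j : PRing lam M) ≠ 0 := fun j =>
    ((u j).isUnit.map (evX (ha θ))).ne_zero
  show evX (ha θ) (ent u l : PRing lam M) = _
  have h6 : evX (ha θ) (ent u l : PRing lam M) * evX (ha θ) (u 0 : PRing lam M) =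
      evX (ha θ) (u l.succ : PRing lam M) := by
    unfold ent
    rw [← map_mul, ← Units.val_mul, div_mul_cancel]
  have h7 := hne 0
  rw [← eq_div_iff h7] at h6
  rw [h6, e, e, div_div_div_cancel_right₀ ((ha θ).ne 0)]

end Ev

end Pool.Agent.K6.H95.SP
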