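import Pool.Agent.K6.H95.SP.Cusp
import Pool.Agent.K6.H95.SP.Ring
set_option autoImplicit false

/-!
Tori near the degenerate fibres, and the determinant of the regulators.
-/

namespace Pool.Agent.K6.H95.SP

open Pool.Agent.TH826.MK (symb Torus Good Per pairing good_const)

theorem det_ne {n : ℕ} (D : Fin n → ℝ) (hD : ∀ k, D k ≠ 0) :
    ∃ ε : ℝ, 0 < ε ∧ ∀ (A : Matrix (Fin n) (Fin n) ℝ) (L : Fin n → ℝ), (∀ k, L k ≠ 0) →
      (∀ k l, |A k l / L k - (if l = k then D k else 0)| ≤ ε) → A.det ≠ 0 := by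
  classical
  set B : Fin n → Fin n → ℝ := fun k l => if l = k then D k else 0 with hB
  have hcont : Continuous fun A : Fin n → Fin n → ℝ => (Matrix.of A).det := by
    refine Continuous.matrix_det ?_
    exact continuous_id
  have hdet : (Matrix.of B).det ≠ 0 := by
    have e : Matrix.of B = Matrix.diagonal D := by
      ext k l
      rw [Matrix.of_apply, Matrix.diagonal_apply, hB]
      simp only
      by_cases h : l = k
      · rw [if_pos h, if_pos h.symm]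
      · rw [if_neg h, if_neg (Ne.symm h)]
    rw [e, Matrix.det_diagonal]
    exact Finset.prod_ne_zero_iff.2 fun k _ => hD k
  have hopen : IsOpen {A : Fin n → Fin n → ℝ | (Matrix.of A).det ≠ 0} := isOpen_ne.preimage hcont
  obtain ⟨δ, hδ, hball⟩ := Metric.isOpen_iff.1 hopen B hdet
  refine ⟨δ / 2, by linarith, fun A L hL hA => ?_⟩
  have h1 : (fun k l => (L k)⁻¹ * A k l) ∈ Metric.ball B δ := by
    rw [Metric.mem_ball, dist_pi_lt_iff hδ]
    intro k
    rw [dist_pi_lt_iff hδ]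
    intro l
    rw [Real.dist_eq, inv_mul_eq_div]
    exact lt_of_le_of_lt (hA k l) (by linarith)
  have h2 : (Matrix.of fun k l => (L k)⁻¹ * A k l).det ≠ 0 := hball h1
  rw [Matrix.det_mul_column] at h2
  exact right_ne_zero_of_mul h2

section cusp

variable {K : Type*} [Field K] {s : ℕ}

theorem hall_top {P : Matrix (Fin (s + 2)) (Fin (s + 2)) K} (hP : Hall P) (σ : K →+* ℂ) :
    ∃ top : Fin (s + 2) → Fin (s + 2), (∀ j, (P.map σ) j (top j) ≠ 0 ∧
      ∀ i, (P.map σ) j i ≠ 0 → i ≤ top j) ∧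
      ∑ i : Fin (s + 2), (i : ℤ) < ∑ j, (top j : ℤ) := by
  obtain ⟨t, -, ht⟩ := exists_top (S := fun j i => (P.map σ) j i) (fun j => by
    obtain ⟨i, h1, h2⟩ := hP.row (by omega) 0 j
    exact ⟨i, h1, (map_ne_zero σ).2 h2⟩)
  refine ⟨t, ht, hall_sum (by omega) hP (fun i => (i : ℤ)) (fun j => (t j : ℤ))
    (fun j i hi => ?_) ⟨0, 1, by simp⟩⟩
  have h1 := (ht j).2 i ((map_ne_zero σ).2 hi)
  exact_mod_cast h1

theorem lin_mul (σ : K →+* ℂ) (Q R : Matrix (Fin (s + 2)) (Fin (s + 2)) K)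
    (c : Fin (s + 2) → ℂ) (j : Fin (s + 2)) :
    ∑ i, σ (Q j i) * ∑ k, σ (R i k) * c k = ∑ k, σ ((Q * R) j k) * c k := by
  have h : ∀ i, σ (Q j i) * ∑ k, σ (R i k) * c k = ∑ k, σ (Q j i) * (σ (R i k) * c k) :=
    fun i => Finset.mul_sum _ _ _
  rw [Finset.sum_congr rfl fun i _ => h i, Finset.sum_comm]
  refine Finset.sum_congr rfl fun k _ => ?_
  rw [Matrix.mul_apply, map_sum, Finset.sum_mul]
  refine Finset.sum_congr rfl fun i _ => ?_
  rw [map_mul, mul_assoc]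

theorem lin_smul_one (σ : K →+* ℂ) (g : K) (c : Fin (s + 2) → ℂ) (j : Fin (s + 2)) :
    ∑ k, σ ((g • (1 : Matrix (Fin (s + 2)) (Fin (s + 2)) K)) j k) * c k = σ g * c j := by
  rw [Finset.sum_eq_single j]
  · rw [Matrix.smul_apply, Matrix.one_apply_eq, smul_eq_mul, mul_one]
  · intro k _ hk
    rw [Matrix.smul_apply, Matrix.one_apply_ne (Ne.symm hk), smul_zero, map_zero, zero_mul]
  · intro h
    exact absurd (Finset.mem_univ j) h

/-- The tori near a degenerate fibre: `c` are the coordinates of the degenerating simplex,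
`a = R c`, and `Q_k` are the matrices of all simplices. -/
theorem cusp_torus (σ : K →+* ℂ) {P : Matrix (Fin (s + 2)) (Fin (s + 2)) K} (hP : Hall P) :
    ∃ D : ℝ, D ≠ 0 ∧ ∀ (κ : Type) [Fintype κ] [DecidableEq κ]
      (M R : Matrix (Fin (s + 2)) (Fin (s + 2)) K)
      (Q : κ → Matrix (Fin (s + 2)) (Fin (s + 2)) K) (k0 kA : κ) (g : K), g ≠ 0 → Q kA = 1 →
      Q k0 * R = g • 1 → (∀ k, k ≠ k0 → ∀ j, ∃ i, i ≠ 0 ∧ (Q k * R) j i ≠ 0) →
      ∀ ε : ℝ, 0 < ε → ∃ C : ℝ, 1 < C ∧ ∀ (lam t : K), C ≤ ‖σ t‖ →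
        (∀ c : Fin (s + 2) → ℂ, ∏ j, ∑ i, σ (P j i) * c i = σ t * ∏ i, c i →
          σ lam * ∏ j, ∑ i, σ (M j i) * ∑ k, σ (R i k) * c k = ∏ i, ∑ k, σ (R i k) * c k) →
        ∀ (u : κ → Fin (s + 2) → (PRing lam M)ˣ),
        (∀ k j, (u k j : PRing lam M) = fq lam M (Q k) j) →
        ∃ Γ : Torus (PRing lam M) s, (∀ θ x, Γ.e θ (cst lam M x) = σ x) ∧
          ∀ k, |Γ.reg (symb (ent (u k))) / Real.log ‖σ t‖ - (if k = k0 then D else 0)| ≤ ε := by
  obtain ⟨top, htop, hpos⟩ := hall_top hP σ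
  obtain ⟨D, hD, hmain⟩ := exists_cusp htop hpos
  refine ⟨D, hD, fun κ _ _ M R Q k0 kA g hg hkA hk0 hk ε hε => ?_⟩
  obtain ⟨C, hC1, hC⟩ := hmain {k : κ // k ≠ k0} (fun a j i => σ ((Q a.1 * R) j i))
    (fun a j => by
      obtain ⟨i, h1, h2⟩ := hk a.1 a.2 j
      exact ⟨i, h1, (map_ne_zero σ).2 h2⟩) ε hε
  refine ⟨C, hC1, fun lam t ht hrel u hu => ?_⟩
  obtain ⟨z, hz1, hz2, hz3, hz4, hz5⟩ := hC (σ t) ht
  have hcg := good_cv hz1
  -- the homogeneous coordinates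
  set a : (Fin s → ℝ) → Fin (s + 2) → ℂ := fun θ i => ∑ k, σ (R i k) * cv z k θ with ha
  have hforms : ∀ k j θ, ∑ i, σ (Q k j i) * a θ i = ∑ i, σ ((Q k * R) j i) * cv z i θ := by
    intro k j θ
    exact lin_mul σ (Q k) R (fun i => cv z i θ) j
  have hfne : ∀ k j θ, ∑ i, σ ((Q k * R) j i) * cv z i θ ≠ 0 := by
    intro k j θ
    by_cases h : k = k0
    · rw [h, hk0, lin_smul_one σ g (fun i => cv z i θ)]
      exact mul_ne_zero ((map_ne_zero σ).2 hg) ((hcg j).ne_zero θ)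
    · exact ((hz5 ⟨k, h⟩).1 j).ne_zero θ
  have hane : ∀ θ i, a θ i ≠ 0 := by
    intro θ i
    have h1 := hfne kA i θ
    have h2 := hforms kA i θ
    rw [hkA] at h2
    rw [hkA] at h1
    have h3 : ∑ i', σ ((1 : Matrix (Fin (s + 2)) (Fin (s + 2)) K) i i') * a θ i' = a θ i := by
      have h4 := lin_smul_one σ 1 (a θ) i
      rw [one_smul, map_one, one_mul] at h4
      exact h4
    rw [h3] at h2
    rw [h2]
    exact h1
  have hac : ContDiff ℝ 2 a := by
    refine contDiff_pi.2 fun i => ?_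
    exact ContDiff.sum fun k _ => contDiff_const.mul (hcg k).smooth
  have hap : ∀ θ i, a (θ + Pi.single i 1) = a θ := by
    intro θ i
    funext l
    simp only [ha]
    refine Finset.sum_congr rfl fun k _ => ?_
    rw [per_cv hz2 k θ i]
  have hpt : ∀ θ, GoodPt σ lam M (a θ) := fun θ =>
    { ne := hane θ
      eq := by
        refine hrel (fun i => cv z i θ) ?_
        have h1 := hz3 θ
        have h2 : ∏ i, cv z i θ = ∏ i, z i θ := by
          rw [Fin.prod_univ_succ, cv_zero, one_mul]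
          rfl
        rw [h2]
        exact h1 }
  refine ⟨mkT a hac hap hpt, fun θ x => evX_cst (hpt θ) x, fun k => ?_⟩
  rw [Torus.reg_symb]
  unfold Torus.pair
  have e1 : (fun l => (mkT a hac hap hpt).fn (ent (u k) l : PRing lam M)) =
      fun (l : Fin (s + 1)) θ => (∑ i, σ ((Q k * R) l.succ i) * cv z i θ) /
        (∑ i, σ ((Q k * R) 0 i) * cv z i θ) := by
    funext l
    rw [mkT_ent a hac hap hpt (u k) (Q k) (hu k) l]
    funext θ
    rw [hforms, hforms]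
  rw [e1]
  by_cases h : k = k0
  · rw [if_pos h]
    have e2 : (fun (l : Fin (s + 1)) (θ : Fin s → ℝ) =>
        (∑ i, σ ((Q k * R) l.succ i) * cv z i θ) / (∑ i, σ ((Q k * R) 0 i) * cv z i θ)) = z := by
      funext l θ
      rw [h, hk0, lin_smul_one σ g (fun i => cv z i θ), lin_smul_one σ g (fun i => cv z i θ)]
      simp only [cv_zero, cv_succ]
      rw [mul_one, mul_div_assoc, mul_comm, div_mul_cancel₀ _ ((map_ne_zero σ).2 hg)]
    rw [e2]
    exact hz4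
  · rw [if_neg h, sub_zero]
    exact (hz5 ⟨k, h⟩).2

end cusp

section two

variable {K : Type*} [Field K] {s : ℕ}

/-- The matrices of the two simplices. -/
def Q2 (M : Matrix (Fin (s + 2)) (Fin (s + 2)) K) : Fin 2 → Matrix (Fin (s + 2)) (Fin (s + 2)) K :=
  ![1, M]

/-- The units of the two simplices. -/
noncomputable def u2 (lam : K) (M : Matrix (Fin (s + 2)) (Fin (s + 2)) K) :
    Fin 2 → Fin (s + 2) → (PRing lam M)ˣ := ![ua lam M, ub lam M]

theorem coe_u2 (lam : K) (M : Matrix (Fin (s + 2)) (Fin (s + 2)) K) (k : Fin 2)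
    (j : Fin (s + 2)) : (u2 lam M k j : PRing lam M) = fq lam M (Q2 M k) j := by
  fin_cases k
  · have h := fq_smul_one (lam := lam) (M := M) 1 j
    rw [one_smul, map_one, one_mul] at h
    exact h.symm
  · rfl

theorem exists_two (σ τ : K →+* ℂ) {M N : Matrix (Fin (s + 2)) (Fin (s + 2)) K} {δ : K}
    (hδ : δ ≠ 0) (hMN : M * N = δ • 1) (hM : Hall M) (hN : Hall N) :
    ∃ C : ℝ, 1 ≤ C ∧ ∀ lam : K, lam ≠ 0 → ‖σ lam‖ ≤ C⁻¹ → C ≤ ‖τ lam‖ →
      ∃ Γ : Fin 2 → Torus (PRing lam M) s,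
        (∀ θ x, (Γ 0).e θ (cst lam M x) = σ x) ∧ (∀ θ x, (Γ 1).e θ (cst lam M x) = τ x) ∧
        (Matrix.of fun k l => (Γ k).reg (symb (ent (u2 lam M l)))).det ≠ 0 := by
  classical
  obtain ⟨D0, hD0, h0⟩ := cusp_torus σ hM
  obtain ⟨D1, hD1, h1⟩ := cusp_torus τ hN
  obtain ⟨ε, hε, hdet⟩ := det_ne ![D0, D1] (fun k => by
    fin_cases k
    · exact hD0
    · exact hD1)
  obtain ⟨C0, hC0, H0⟩ := h0 (Fin 2) M 1 (Q2 M) 0 0 1 one_ne_zero rfl
    (by rw [one_smul]; exact one_mul _) (fun k hk j => by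
      have hk1 : k = 1 := by omega
      rw [hk1]
      obtain ⟨i, h1, h2⟩ := hM.row (by omega) 0 j
      refine ⟨i, h1, ?_⟩
      rw [mul_one]
      exact h2) ε hε
  obtain ⟨C1, hC1, H1⟩ := h1 (Fin 2) M N (Q2 M) 1 0 δ hδ rfl hMN (fun k hk j => by
      have hk1 : k = 0 := by omega
      rw [hk1]
      obtain ⟨i, h1, h2⟩ := hN.row (by omega) 0 j
      refine ⟨i, h1, ?_⟩
      show ((1 : Matrix (Fin (s + 2)) (Fin (s + 2)) K) * N) j i ≠ 0
      rw [one_mul]
      exact h2) ε hε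
  set G : ℝ := ‖τ (δ ^ (s + 2))‖ with hG
  have hGpos : 0 < G := norm_pos_iff.2 ((map_ne_zero τ).2 (pow_ne_zero _ hδ))
  refine ⟨max C0 (C1 / G), hC0.le.trans (le_max_left _ _), fun lam hlam hl0 hl1 => ?_⟩
  have hC0pos : 0 < C0 := by linarith
  have hmaxpos : 0 < max C0 (C1 / G) := hC0pos.trans_le (le_max_left _ _)
  have ht0 : C0 ≤ ‖σ lam⁻¹‖ := by
    rw [map_inv₀, norm_inv]
    have h2 : 0 < ‖σ lam‖ := norm_pos_iff.2 ((map_ne_zero σ).2 hlam)
    rw [le_inv_comm₀ hC0pos h2]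
    exact hl0.trans (inv_anti₀ hC0pos (le_max_left _ _))
  have ht1 : C1 ≤ ‖τ (δ ^ (s + 2) * lam)‖ := by
    rw [map_mul, norm_mul, ← hG]
    have h2 : C1 / G ≤ ‖τ lam‖ := (le_max_right _ _).trans hl1
    rw [div_le_iff₀ hGpos] at h2
    linarith
  obtain ⟨Γ0, a0, b0⟩ := H0 lam lam⁻¹ ht0 (fun c hc => by
    have e : ∀ (c : Fin (s + 2) → ℂ) i,
        ∑ k, σ ((1 : Matrix (Fin (s + 2)) (Fin (s + 2)) K) i k) * c k = c i := by
      intro c i
      have h4 := lin_smul_one σ 1 c i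
      rw [one_smul, map_one, one_mul] at h4
      exact h4
    simp only [e]
    rw [hc, ← mul_assoc, ← map_mul, mul_inv_cancel₀ hlam, map_one, one_mul])
    (u2 lam M) (coe_u2 lam M)
  obtain ⟨Γ1, a1, b1⟩ := H1 lam (δ ^ (s + 2) * lam) ht1 (fun c hc => by
    rw [hc, Finset.prod_congr rfl fun j _ => (lin_mul τ M N c j), hMN,
      Finset.prod_congr rfl fun j _ => (lin_smul_one τ δ c j), Finset.prod_mul_distrib,
      Finset.prod_const, Finset.card_univ, Fintype.card_fin, map_mul, map_pow]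
    ring) (u2 lam M) (coe_u2 lam M)
  refine ⟨![Γ0, Γ1], a0, a1, ?_⟩
  refine hdet _ ![Real.log ‖σ lam⁻¹‖, Real.log ‖τ (δ ^ (s + 2) * lam)‖] (fun k => ?_)
    fun k l => ?_
  · fin_cases k
    · exact (Real.log_pos (lt_of_lt_of_le hC0 ht0)).ne'
    · exact (Real.log_pos (lt_of_lt_of_le hC1 ht1)).ne'
  · fin_cases k
    · exact b0 l
    · exact b1 l

end two

end Pool.Agent.K6.H95.SP
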