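import Mathlib
set_option autoImplicit false

/-!
Fully indecomposable matrices: the sum of the maxima over the supports of the rows.
-/

namespace Pool.Agent.K6.H95.SP

variable {K : Type*} [Field K] {n : ℕ}

/-- The matrix is fully indecomposable: if all nonzero entries in the rows `j ∈ T` lie in the columns
`i ∈ S`, where `S` is a nonempty proper set of columns, then `|T| < |S|`. -/
def Hall (P : Matrix (Fin n) (Fin n) K) : Prop :=
  ∀ S T : Finset (Fin n), S.Nonempty → S ≠ Finset.univ →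
    (∀ j ∈ T, ∀ i, P j i ≠ 0 → i ∈ S) → T.card < S.card

theorem Hall.row {P : Matrix (Fin n) (Fin n) K} (hP : Hall P) (hn : 2 ≤ n) (i0 j : Fin n) :
    ∃ i, i ≠ i0 ∧ P j i ≠ 0 := by
  by_contra hcon
  push Not at hcon
  have h := hP {i0} {j} (Finset.singleton_nonempty _) (by
    intro h5
    have h6 := congrArg Finset.card h5
    rw [Finset.card_singleton, Finset.card_univ, Fintype.card_fin] at h6
    omega) (by
      intro j' hj' i hi
      rw [Finset.mem_singleton] at hj' ⊢
      by_contra h7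
      rw [hj'] at hi
      exact hi (hcon i h7))
  simp at h

theorem sub_card_Ico {Lo e : ℤ} {U : ℤ} (h1 : Lo ≤ e) (h2 : e ≤ U) :
    e = U - ∑ t ∈ Finset.Ico Lo U, (if e ≤ t then (1 : ℤ) else 0) := by
  have h3 : ∑ t ∈ Finset.Ico Lo U, (if e ≤ t then (1 : ℤ) else 0) =
      ((Finset.Ico Lo U).filter fun t => e ≤ t).card := by
    rw [Finset.sum_ite, Finset.sum_const_zero, add_zero, Finset.sum_const, nsmul_eq_mul, mul_one]
  have h4 : (Finset.Ico Lo U).filter (fun t => e ≤ t) = Finset.Ico e U := by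
    ext t
    simp only [Finset.mem_filter, Finset.mem_Ico]
    omega
  rw [h3, h4, Int.card_Ico]
  omega

theorem sum_eq_sub {Lo U : ℤ} (e : Fin n → ℤ) (h1 : ∀ i, Lo ≤ e i) (h2 : ∀ i, e i ≤ U) :
    ∑ i, e i = n * U - ∑ t ∈ Finset.Ico Lo U, ((Finset.univ.filter fun i => e i ≤ t).card : ℤ) := by
  have h3 : ∀ t : ℤ, ((Finset.univ.filter fun i => e i ≤ t).card : ℤ) =
      ∑ i, (if e i ≤ t then (1 : ℤ) else 0) := by
    intro t
    rw [Finset.sum_ite, Finset.sum_const_zero, add_zero, Finset.sum_const, nsmul_eq_mul, mul_one]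
  rw [Finset.sum_congr rfl fun t _ => h3 t, Finset.sum_comm,
    Finset.sum_congr rfl fun i _ => sub_card_Ico (h1 i) (h2 i), Finset.sum_sub_distrib,
    Finset.sum_const, Finset.card_univ, Fintype.card_fin, nsmul_eq_mul]

/-- the sum of the maxima -/
theorem hall_sum {P : Matrix (Fin n) (Fin n) K} (hn : 2 ≤ n) (hP : Hall P) (e mx : Fin n → ℤ)
    (h : ∀ j i, P j i ≠ 0 → e i ≤ mx j) (hne : ∃ i i', e i ≠ e i') : ∑ i, e i < ∑ j, mx j := by
  classical
  set U : ℤ := ∑ i, (|e i| + |mx i|) with hU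
  have hb : ∀ i, |e i| ≤ U ∧ |mx i| ≤ U := by
    intro i
    have h1 := Finset.single_le_sum (f := fun i => |e i| + |mx i|) (fun i _ => by positivity)
      (Finset.mem_univ i)
    have h4 := abs_nonneg (e i)
    have h5 := abs_nonneg (mx i)
    have h6 : |e i| + |mx i| ≤ U := h1
    constructor <;> linarith
  have he1 : ∀ i, -U ≤ e i := fun i => (abs_le.1 (hb i).1).1
  have he2 : ∀ i, e i ≤ U := fun i => (abs_le.1 (hb i).1).2
  have hm1 : ∀ i, -U ≤ mx i := fun i => (abs_le.1 (hb i).2).1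
  have hm2 : ∀ i, mx i ≤ U := fun i => (abs_le.1 (hb i).2).2
  rw [sum_eq_sub e he1 he2, sum_eq_sub mx hm1 hm2]
  -- the level sets
  have hlt : ∀ t, (Finset.univ.filter fun i => e i ≤ t).Nonempty →
      (Finset.univ.filter fun i => e i ≤ t) ≠ Finset.univ →
        (Finset.univ.filter fun j => mx j ≤ t).card <
          (Finset.univ.filter fun i => e i ≤ t).card := by
    intro t h2 h3
    refine hP _ _ h2 h3 fun j hj i hi => ?_
    rw [Finset.mem_filter] at hj ⊢
    exact ⟨Finset.mem_univ _, (h j i hi).trans hj.2⟩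
  have hle : ∀ t, (Finset.univ.filter fun j => mx j ≤ t).card ≤
      (Finset.univ.filter fun i => e i ≤ t).card := by
    intro t
    by_cases h2 : (Finset.univ.filter fun i => e i ≤ t).Nonempty
    · by_cases h3 : (Finset.univ.filter fun i => e i ≤ t) = Finset.univ
      · rw [h3]
        exact Finset.card_le_card (Finset.filter_subset _ _)
      · exact (hlt t h2 h3).le
    · rw [Finset.not_nonempty_iff_eq_empty] at h2
      rw [h2, Finset.card_empty, Nat.le_zero, Finset.card_eq_zero, Finset.filter_eq_empty_iff]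
      intro j _ hj
      obtain ⟨i, -, hi⟩ := hP.row hn j j
      have h5 : i ∈ Finset.univ.filter fun i => e i ≤ t := by
        rw [Finset.mem_filter]
        exact ⟨Finset.mem_univ _, (h j i hi).trans hj⟩
      rw [h2] at h5
      exact absurd h5 (Finset.notMem_empty _)
  obtain ⟨i0, i1, hi⟩ : ∃ i0 i1, e i0 < e i1 := by
    obtain ⟨i, i', h1⟩ := hne
    rcases lt_or_gt_of_ne h1 with h2 | h2
    · exact ⟨i, i', h2⟩
    · exact ⟨i', i, h2⟩
  have hsum : ∑ t ∈ Finset.Ico (-U) U, ((Finset.univ.filter fun j => mx j ≤ t).card : ℤ) <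
      ∑ t ∈ Finset.Ico (-U) U, ((Finset.univ.filter fun i => e i ≤ t).card : ℤ) := by
    refine Finset.sum_lt_sum (fun t _ => by exact_mod_cast hle t) ⟨e i0, ?_, ?_⟩
    · rw [Finset.mem_Ico]
      exact ⟨he1 i0, hi.trans_le (he2 i1)⟩
    · have h1 := hlt (e i0) ⟨i0, by simp⟩ (by
        intro h2
        have h3 := Finset.mem_univ i1
        rw [← h2, Finset.mem_filter] at h3
        exact absurd h3.2 (not_le.2 hi))
      exact_mod_cast h1
  linarith

end Pool.Agent.K6.H95.SP
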