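import Pool.Agent.N65.TL.Branch
set_option autoImplicit false

/-!
Functions on tori close to `1`.
-/

namespace Pool.Agent.K6.H95.SP

open Pool.Agent.TH826.MK
open Pool.Agent.N65.TL (lw_inv good_inv)

variable {d : ℕ}

theorem lw_mul_self {g : (Fin d → ℝ) → ℂ} (hg : Good g) (j : Fin d) (θ : Fin d → ℝ) :
    g θ * lw g j θ = fderiv ℝ g θ (Pi.single j 1) := by
  unfold lw
  rw [mul_div_cancel₀ _ (hg.ne_zero θ)]

theorem near_one {ι : Type*} [Fintype ι] (c : ι → ℂ) (u : ι → (Fin d → ℝ) → ℂ)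
    (hu : ∀ i, Good (u i)) {η B : ℝ} (hη : 0 ≤ η)
    (h1 : ∀ i θ, ‖u i θ‖ ≤ η) (h2 : ∀ i j θ, ‖lw (u i) j θ‖ ≤ B)
    (h3 : (∑ i, ‖c i‖) * η ≤ 1 / 2) :
    Good (fun θ => 1 + ∑ i, c i * u i θ) ∧
      (∀ θ, |Real.log ‖1 + ∑ i, c i * u i θ‖| ≤ 2 * ((∑ i, ‖c i‖) * η)) ∧
      ∀ j θ, ‖lw (fun θ => 1 + ∑ i, c i * u i θ) j θ‖ ≤ 2 * ((∑ i, ‖c i‖) * η * B) := by
  have hs : ∀ θ, ‖∑ i, c i * u i θ‖ ≤ (∑ i, ‖c i‖) * η := by
    intro θ
    rw [Finset.sum_mul]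
    refine (norm_sum_le _ _).trans (Finset.sum_le_sum fun i _ => ?_)
    rw [norm_mul]
    exact mul_le_mul_of_nonneg_left (h1 i θ) (norm_nonneg _)
  have hM0 : 0 ≤ (∑ i, ‖c i‖) * η := mul_nonneg (Finset.sum_nonneg fun i _ => norm_nonneg _) hη
  have hlo : ∀ θ, 1 - (∑ i, ‖c i‖) * η ≤ ‖1 + ∑ i, c i * u i θ‖ := by
    intro θ
    have h4 := norm_sub_le_norm_add (1 : ℂ) (∑ i, c i * u i θ)
    rw [norm_one] at h4
    have h5 := hs θ
    linarith
  have hup : ∀ θ, ‖1 + ∑ i, c i * u i θ‖ ≤ 1 + (∑ i, ‖c i‖) * η := by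
    intro θ
    have h4 := norm_add_le (1 : ℂ) (∑ i, c i * u i θ)
    rw [norm_one] at h4
    have h5 := hs θ
    linarith
  have hhalf : ∀ θ, 1 / 2 ≤ ‖1 + ∑ i, c i * u i θ‖ := fun θ => by linarith [hlo θ]
  have hg : Good (fun θ => 1 + ∑ i, c i * u i θ) := by
    refine ⟨?_, fun θ => norm_pos_iff.1 (by linarith [hhalf θ])⟩
    exact contDiff_const.add (ContDiff.sum fun i _ => contDiff_const.mul (hu i).smooth)
  refine ⟨hg, fun θ => ?_, fun j θ => ?_⟩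
  · have hpos : 0 < ‖1 + ∑ i, c i * u i θ‖ := by linarith [hhalf θ]
    have h4 := Real.log_le_sub_one_of_pos hpos
    have h5 := Real.log_le_sub_one_of_pos (inv_pos.2 hpos)
    rw [Real.log_inv] at h5
    have h6 : (‖1 + ∑ i, c i * u i θ‖)⁻¹ - 1 ≤ 2 * ((∑ i, ‖c i‖) * η) := by
      have h7 : (‖1 + ∑ i, c i * u i θ‖)⁻¹ - 1 = (1 - ‖1 + ∑ i, c i * u i θ‖) *
          (‖1 + ∑ i, c i * u i θ‖)⁻¹ := by
        field_simp
      have h8 : (‖1 + ∑ i, c i * u i θ‖)⁻¹ ≤ 2 := by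
        rw [inv_le_comm₀ hpos (by norm_num)]
        linarith [hhalf θ]
      rw [h7]
      calc (1 - ‖1 + ∑ i, c i * u i θ‖) * (‖1 + ∑ i, c i * u i θ‖)⁻¹ ≤
          ((∑ i, ‖c i‖) * η) * (‖1 + ∑ i, c i * u i θ‖)⁻¹ :=
            mul_le_mul_of_nonneg_right (by linarith [hlo θ]) (inv_nonneg.2 hpos.le)
        _ ≤ ((∑ i, ‖c i‖) * η) * 2 := mul_le_mul_of_nonneg_left h8 hM0
        _ = _ := mul_comm _ _
    rw [abs_le]
    constructor
    · linarith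
    · linarith [hup θ]
  · have e : fderiv ℝ (fun θ => 1 + ∑ i, c i * u i θ) θ (Pi.single j 1) =
        ∑ i, c i * (u i θ * lw (u i) j θ) := by
      have h4 : HasFDerivAt (fun θ => 1 + ∑ i, c i * u i θ)
          (∑ i, c i • fderiv ℝ (u i) θ) θ := by
        refine HasFDerivAt.const_add _ (HasFDerivAt.fun_sum fun i _ => ?_)
        exact (((hu i).smooth.differentiable (by norm_num)) θ).hasFDerivAt.const_mul (c i)
      rw [h4.fderiv, ContinuousLinearMap.sum_apply]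
      refine Finset.sum_congr rfl fun i _ => ?_
      rw [lw_mul_self (hu i)]
      rfl
    unfold lw
    rw [e, norm_div, div_le_iff₀ (by linarith [hhalf θ])]
    have h5 : ‖∑ i, c i * (u i θ * lw (u i) j θ)‖ ≤ (∑ i, ‖c i‖) * η * B := by
      rw [mul_assoc, Finset.sum_mul]
      refine (norm_sum_le _ _).trans (Finset.sum_le_sum fun i _ => ?_)
      rw [norm_mul, norm_mul]
      exact mul_le_mul_of_nonneg_left (mul_le_mul (h1 i θ) (h2 i j θ) (norm_nonneg _) hη)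
        (norm_nonneg _)
    have hB : 0 ≤ (∑ i, ‖c i‖) * η * B := (norm_nonneg _).trans h5
    calc _ ≤ (∑ i, ‖c i‖) * η * B := h5
      _ = 2 * ((∑ i, ‖c i‖) * η * B) * (1 / 2) := by ring
      _ ≤ _ := mul_le_mul_of_nonneg_left (hhalf θ) (by linarith)

/-- the logarithmic derivative of a quotient -/
theorem lw_div {g h : (Fin d → ℝ) → ℂ} (hg : Good g) (hh : Good h) (j : Fin d) (θ : Fin d → ℝ) :
    lw (fun θ => g θ / h θ) j θ = lw g j θ - lw h j θ := by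
  have h1 : (fun θ => g θ / h θ) = fun θ => g θ * (h θ)⁻¹ := funext fun θ => div_eq_mul_inv _ _
  rw [h1, lw_mul hg (good_inv hh), lw_inv hh]
  ring

theorem good_div {g h : (Fin d → ℝ) → ℂ} (hg : Good g) (hh : Good h) :
    Good fun θ => g θ / h θ := by
  simp only [div_eq_mul_inv]
  exact hg.mul (good_inv hh)

end Pool.Agent.K6.H95.SP
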