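import Pool.Agent.N65.TL.Lau
import Pool.Agent.K6.H95.SP.Hall
set_option autoImplicit false

/-!
The symbol of a simplex, if a second simplex is given by a matrix of zeros and roots of unity.
-/

namespace Pool.Agent.K6.H95.SP

open scoped WithZero

open Pool.Agent.TH826.MK (symb unitPart exists_ord val_le_one_of_integral)

open Pool.Agent.N65.TL (mon mon_zero mon_sub mon_single mem_unitPart_of_indep val_root)

section exps

variable {m : ℕ}

/-- the exponents of `x_i / x_0` -/
def E (i : Fin (m + 1)) : Fin m → ℤ := Fin.cases 0 (fun l => Pi.single l 1) i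

theorem E_zero : E (0 : Fin (m + 1)) = 0 := rfl

theorem E_succ (l : Fin m) : E l.succ = Pi.single l 1 := rfl

theorem affineIndependent_E : AffineIndependent ℤ (E : Fin (m + 1) → (Fin m → ℤ)) := by
  rw [affineIndependent_iff_linearIndependent_vsub ℤ _ (0 : Fin (m + 1))]
  have h1 : LinearIndependent ℤ fun l : Fin m => (Pi.single l 1 : Fin m → ℤ) := by
    have h2 := (Pi.basisFun ℤ (Fin m)).linearIndependent
    convert h2 using 1
    · funext l
      rw [Pi.basisFun_apply]
    · exact Subsingleton.elim _ _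
  have h2 : (fun i : {x : Fin (m + 1) // x ≠ 0} => (E i -ᵥ E 0 : Fin m → ℤ)) =
      (fun l : Fin m => (Pi.single l 1 : Fin m → ℤ)) ∘ fun i : {x : Fin (m + 1) // x ≠ 0} =>
        i.1.pred i.2 := by
    funext i
    obtain ⟨i, hi⟩ := i
    obtain ⟨l, rfl⟩ := Fin.exists_succ_eq.2 hi
    simp [E_zero, E_succ]
  rw [h2]
  refine h1.comp _ fun i i' h => ?_
  exact Subtype.ext (Fin.pred_inj.1 h)

theorem indep_E (i1 : Fin (m + 1)) (p : Fin (m + 1) → Prop) :
    LinearIndependent ℤ fun i : {i : Fin (m + 1) // p i ∧ i ≠ i1} => E i.1 - E i1 := by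
  have h1 := (affineIndependent_iff_linearIndependent_vsub ℤ (E : Fin (m + 1) → (Fin m → ℤ)) i1).1
    affineIndependent_E
  exact h1.comp (fun i : {i : Fin (m + 1) // p i ∧ i ≠ i1} => ⟨i.1, i.2.2⟩) fun i i' h => by
    have := congrArg Subtype.val h
    exact Subtype.ext this

theorem mon_E {G : Type*} [CommGroup G] (x : Fin (m + 1) → G) (i : Fin (m + 1)) :
    mon (fun l : Fin m => x l.succ / x 0) (E i) = x i / x 0 := by
  refine Fin.cases ?_ (fun l => ?_) i
  · rw [E_zero, mon_zero, div_self']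
  · rw [E_succ, mon_single]

theorem mon_E_sub {G : Type*} [CommGroup G] (x : Fin (m + 1) → G) (i i1 : Fin (m + 1)) :
    mon (fun l : Fin m => x l.succ / x 0) (E i - E i1) = x i / x i1 := by
  rw [mon_sub, mon_E, mon_E, div_div_div_cancel_right]

end exps

section unram

variable {K L : Type*} [Field K] [Field L] {m : ℕ}

/-- All entries are zero or roots of unity. -/
def Tors {n : ℕ} (P : Matrix (Fin n) (Fin n) K) : Prop :=
  ∀ j i, P j i = 0 ∨ ∃ k : ℕ, k ≠ 0 ∧ P j i ^ k = 1

theorem mem_unitPart_simplex (φ : K →+* L) (v : Valuation L ℤᵐ⁰)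
    {P : Matrix (Fin (m + 1)) (Fin (m + 1)) K} (hm : 1 ≤ m) (hP : Hall P) (hT : Tors P)
    (x : Fin (m + 1) → Lˣ) (y : Fin (m + 1) → L) (hy : ∀ j, y j = ∑ i, φ (P j i) * x i)
    (hv : ∏ j, v (y j) ≤ ∏ i, v (x i : L)) :
    symb (fun l : Fin m => x l.succ / x 0) ∈ unitPart v m := by
  classical
  choose e he using fun i => exists_ord v (x i)
  by_cases hc : ∃ j, ∃ i1, P j i1 ≠ 0 ∧ (∀ i, P j i ≠ 0 → e i ≤ e i1) ∧
      v (y j) < WithZero.exp (e i1)
  · -- the leading terms of a form cancel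
    obtain ⟨j, i1, h1, h2, h3⟩ := hc
    have hroot : ∀ i, P j i ≠ 0 → ∃ k : ℕ, k ≠ 0 ∧ P j i ^ k = 1 := fun i hi =>
      (hT j i).resolve_left hi
    have hφ : ∀ i, P j i ≠ 0 → φ (P j i) ≠ 0 := fun i hi => (map_ne_zero φ).2 hi
    have hφv : ∀ i, P j i ≠ 0 → v (φ (P j i)) = 1 := by
      intro i hi
      obtain ⟨k, hk, hk1⟩ := hroot i hi
      exact val_root v hk (by rw [← map_pow, hk1, map_one])
    set u : {i : Fin (m + 1) // P j i ≠ 0 ∧ i ≠ i1} → Lˣ := fun i =>
      Units.mk0 (φ (P j i.1) / φ (P j i1)) (div_ne_zero (hφ _ i.2.1) (hφ _ h1)) with hu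
    have hterm : ∀ i : {i : Fin (m + 1) // P j i ≠ 0 ∧ i ≠ i1},
        ((u i * mon (fun l : Fin m => x l.succ / x 0) (E i.1 - E i1) : Lˣ) : L) =
          φ (P j i.1) * x i.1 / (φ (P j i1) * x i1) := by
      intro i
      rw [mon_E_sub, Units.val_mul, Units.val_div_eq_div_val, hu, Units.val_mk0,
        div_mul_div_comm]
    refine mem_unitPart_of_indep v (fun l : Fin m => x l.succ / x 0) (p := fun l => l)
      (fun _ _ h => h) _ (indep_E i1 fun i => P j i ≠ 0) u (fun i => ?_) (fun i => ?_) ?_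
    · obtain ⟨k1, hk1, hk1'⟩ := hroot i.1 i.2.1
      obtain ⟨k2, hk2, hk2'⟩ := hroot i1 h1
      refine ⟨k1 * k2, mul_ne_zero hk1 hk2, ?_⟩
      apply Units.ext
      rw [Units.val_pow_eq_pow_val, hu, Units.val_mk0, div_pow, ← map_pow, ← map_pow, pow_mul,
        hk1', one_pow, mul_comm k1 k2, pow_mul, hk2', one_pow, map_one, div_one, Units.val_one]
    · rw [hterm, map_div₀, map_mul, map_mul, hφv _ i.2.1, hφv _ h1, one_mul, one_mul, he, he,
        div_le_one₀ (by exact WithZero.exp_pos)]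
      exact WithZero.exp_le_exp.2 (h2 _ i.2.1)
    · have hne : φ (P j i1) * (x i1 : L) ≠ 0 := mul_ne_zero (hφ _ h1) (Units.ne_zero _)
      have hsum2 : (1 : L) + ∑ i : {i : Fin (m + 1) // P j i ≠ 0 ∧ i ≠ i1},
          ((u i * mon (fun l : Fin m => x l.succ / x 0) (E i.1 - E i1) : Lˣ) : L) =
          y j / (φ (P j i1) * (x i1 : L)) := by
        rw [Finset.sum_congr rfl fun i _ => hterm i, ← Finset.sum_div, eq_div_iff hne, add_mul,
          div_mul_cancel₀ _ hne, one_mul, hy j,
          ← Finset.add_sum_erase Finset.univ _ (Finset.mem_univ i1)]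
        congr 1
        have h4 : ∑ i ∈ Finset.univ.erase i1, φ (P j i) * (x i : L) =
            ∑ i ∈ (Finset.univ.erase i1).filter (fun i => P j i ≠ 0), φ (P j i) * (x i : L) := by
          symm
          refine Finset.sum_filter_of_ne fun i _ hi h5 => hi ?_
          rw [h5, map_zero, zero_mul]
        rw [h4]
        symm
        refine Finset.sum_subtype ((Finset.univ.erase i1).filter (fun i => P j i ≠ 0))
          (fun i => ?_) (fun i => φ (P j i) * (x i : L))
        simp [and_comm]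
      rw [hsum2, map_div₀, map_mul, hφv _ h1, one_mul, he, div_lt_one₀ (by exact WithZero.exp_pos)]
      exact h3
  · -- no cancellation
    push Not at hc
    have hsup : ∀ j, ∃ i1, P j i1 ≠ 0 ∧ ∀ i, P j i ≠ 0 → e i ≤ e i1 := by
      intro j
      obtain ⟨i', -, hi'⟩ := hP.row (by omega) j j
      obtain ⟨i1, h1, h2⟩ := Finset.exists_max_image
        (Finset.univ.filter fun i => P j i ≠ 0) e ⟨i', by simp [hi']⟩
      exact ⟨i1, (Finset.mem_filter.1 h1).2, fun i hi => h2 i (by simp [hi])⟩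
    choose t ht1 ht2 using hsup
    have hge : ∀ j, WithZero.exp (e (t j)) ≤ v (y j) := fun j => hc j (t j) (ht1 j) (ht2 j)
    have hprod : ∀ (f : Fin (m + 1) → ℤ) (s : Finset (Fin (m + 1))),
        ∏ j ∈ s, (WithZero.exp (f j) : ℤᵐ⁰) = WithZero.exp (∑ j ∈ s, f j) := by
      intro f s
      induction s using Finset.induction_on with
      | empty => simp
      | insert j s hj ih => rw [Finset.prod_insert hj, Finset.sum_insert hj, WithZero.exp_add, ih]
    have hge2 : WithZero.exp (∑ j, e (t j)) ≤ ∏ j, v (y j) := by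
      rw [← hprod]
      exact Finset.prod_le_prod' fun j _ => hge j
    have hle2 : ∏ i, v (x i : L) = WithZero.exp (∑ i, e i) := by
      rw [← hprod]
      exact Finset.prod_congr rfl fun i _ => he i
    have hle3 : ∑ j, e (t j) ≤ ∑ i, e i := by
      have h4 := (hge2.trans hv).trans_eq hle2
      exact WithZero.exp_le_exp.1 h4
    have hall : ∀ i i', e i = e i' := by
      by_contra hcon
      push Not at hcon
      exact absurd (hall_sum' hP (by omega) e (fun j => e (t j)) ht2 hcon) (not_lt.2 hle3)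
    refine Submodule.subset_span ⟨_, fun l => ?_, rfl⟩
    rw [Units.val_div_eq_div_val, map_div₀, he, he, hall l.succ 0]
    exact div_self (ne_of_gt (by exact WithZero.exp_pos))
where
  hall_sum' {P : Matrix (Fin (m + 1)) (Fin (m + 1)) K} (hP : Hall P) (hn : 2 ≤ m + 1)
      (e mx : Fin (m + 1) → ℤ) (h : ∀ j i, P j i ≠ 0 → e i ≤ mx j) (hne : ∃ i i', e i ≠ e i') :
      ∑ i, e i < ∑ j, mx j := hall_sum hn hP e mx h hne

end unram

end Pool.Agent.K6.H95.SP
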