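import Pool.Agent.N65.TL.Tor
import Pool.Agent.K6.H95.SP.Unram
import Pool.Agent.K6.H95.SP.Near
set_option autoImplicit false

/-!
Tori near the degenerate fibres `∏ x_i = 0` of the pencils `∏_j (P x)_j = t ∏_i x_i`.
-/

namespace Pool.Agent.K6.H95.SP

open Pool.Agent.TH826.MK
open Pool.Agent.N65.TL (LP dot dot_sub lev lev_eq lev_single mon bdir zmat det_zmat exists_z)

section lp

variable {s : ℕ} (P : Matrix (Fin (s + 2)) (Fin (s + 2)) ℂ)

/-- the weights `1, ..., s + 1` -/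
def al (s : ℕ) : Fin (s + 1) → ℤ := fun l => (l : ℤ) + 1

/-- the exponent of the term of `∏_j (P x)_j / ∏_i x_i` with the index `φ` -/
def mex (φ : Fin (s + 2) → Fin (s + 2)) : Fin (s + 1) → ℤ := ∑ j, E (φ j) - ∑ i, E i

theorem dot_al_E (i : Fin (s + 2)) : dot (al s) (E i) = (i : ℤ) := by
  unfold dot
  refine Fin.cases ?_ (fun l => ?_) i
  · simp [E_zero]
  · rw [E_succ, Finset.sum_eq_single l]
    · rw [Pi.single_eq_same, mul_one]
      unfold al
      simp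
    · intro l' _ h
      rw [Pi.single_eq_of_ne h, mul_zero]
    · intro h
      exact absurd (Finset.mem_univ l) h

theorem dot_sum {ι : Type*} (t : Finset ι) (a : Fin (s + 1) → ℤ) (m : ι → Fin (s + 1) → ℤ) :
    dot a (∑ j ∈ t, m j) = ∑ j ∈ t, dot a (m j) := by
  unfold dot
  rw [Finset.sum_comm]
  refine Finset.sum_congr rfl fun i _ => ?_
  rw [Finset.sum_apply, Finset.mul_sum]

theorem dot_mex (φ : Fin (s + 2) → Fin (s + 2)) :
    dot (al s) (mex φ) = ∑ j, (φ j : ℤ) - ∑ i : Fin (s + 2), (i : ℤ) := by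
  unfold mex
  rw [dot_sub, dot_sum, dot_sum]
  simp only [dot_al_E]

/-- the Laurent polynomial `∏_j (P x)_j / ∏_i x_i`, `x_0 = 1` -/
noncomputable def WP : LP ℂ (s + 1) :=
  (∏ j, ∑ i, AddMonoidAlgebra.single (E i) (P j i)) *
    AddMonoidAlgebra.single (-∑ i : Fin (s + 2), E i) 1

theorem prod_single {ι : Type*} (t : Finset ι) (m : ι → Fin (s + 1) → ℤ) (c : ι → ℂ) :
    ∏ j ∈ t, (AddMonoidAlgebra.single (m j) (c j) : LP ℂ (s + 1)) =
      AddMonoidAlgebra.single (∑ j ∈ t, m j) (∏ j ∈ t, c j) := by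
  classical
  induction t using Finset.induction_on with
  | empty => rfl
  | insert j t hj ih =>
    rw [Finset.prod_insert hj, ih, AddMonoidAlgebra.single_mul_single, Finset.sum_insert hj,
      Finset.prod_insert hj]

theorem WP_eq : WP P = ∑ φ : Fin (s + 2) → Fin (s + 2),
    AddMonoidAlgebra.single (mex φ) (∏ j, P j (φ j)) := by
  classical
  unfold WP
  rw [Finset.prod_univ_sum, Fintype.piFinset_univ, Finset.sum_mul]
  refine Finset.sum_congr rfl fun φ _ => ?_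
  rw [prod_single, AddMonoidAlgebra.single_mul_single, mul_one, ← sub_eq_add_neg]
  rfl

theorem coeff_WP (m : Fin (s + 1) → ℤ) : (WP P).coeff m =
    ∑ φ : Fin (s + 2) → Fin (s + 2), if mex φ = m then ∏ j, P j (φ j) else 0 := by
  classical
  rw [WP_eq, AddMonoidAlgebra.coeff_sum, Finsupp.finsetSum_apply]
  refine Finset.sum_congr rfl fun φ _ => ?_
  rw [AddMonoidAlgebra.coeff_single, Finsupp.single_apply]

variable {P} {top : Fin (s + 2) → Fin (s + 2)}
  (htop : ∀ j, P j (top j) ≠ 0 ∧ ∀ i, P j i ≠ 0 → i ≤ top j)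
include htop

theorem le_of_prod_ne {φ : Fin (s + 2) → Fin (s + 2)} (h : ∏ j, P j (φ j) ≠ 0) (j : Fin (s + 2)) :
    φ j ≤ top j := (htop j).2 _ (Finset.prod_ne_zero_iff.1 h j (Finset.mem_univ j))

theorem sum_lt_of_ne {φ : Fin (s + 2) → Fin (s + 2)} (h : ∏ j, P j (φ j) ≠ 0) (hne : φ ≠ top) :
    ∑ j, (φ j : ℤ) < ∑ j, (top j : ℤ) := by
  have h1 : ∀ j, (φ j : ℤ) ≤ (top j : ℤ) := fun j => by
    have := le_of_prod_ne htop h j
    exact_mod_cast this
  obtain ⟨j, hj⟩ := Function.ne_iff.1 hne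
  refine Finset.sum_lt_sum (fun j _ => h1 j) ⟨j, Finset.mem_univ j, lt_of_le_of_ne (h1 j) ?_⟩
  intro h2
  apply hj
  apply Fin.ext
  exact_mod_cast h2

theorem coeff_top : (WP P).coeff (mex top) = ∏ j, P j (top j) := by
  classical
  rw [coeff_WP, Finset.sum_eq_single top]
  · rw [if_pos rfl]
  · intro φ _ hne
    by_contra h1
    rw [ite_eq_right_iff, not_forall] at h1
    obtain ⟨h1, h2⟩ := h1
    have h3 := sum_lt_of_ne htop h2 hne
    have h4 := congrArg (dot (al s)) h1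
    rw [dot_mex, dot_mex] at h4
    omega
  · intro h
    exact absurd (Finset.mem_univ _) h

theorem coeff_top_ne : (WP P).coeff (mex top) ≠ 0 := by
  rw [coeff_top htop]
  exact Finset.prod_ne_zero_iff.2 fun j _ => (htop j).1

theorem dot_lt {m : Fin (s + 1) → ℤ} (hm : (WP P).coeff m ≠ 0) (hne : m ≠ mex top) :
    dot (al s) m < dot (al s) (mex top) := by
  classical
  rw [coeff_WP] at hm
  obtain ⟨φ, -, h1⟩ := Finset.exists_ne_zero_of_sum_ne_zero hm
  rw [Ne, ite_eq_right_iff, not_forall] at h1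
  obtain ⟨h1, h2⟩ := h1
  have h3 := sum_lt_of_ne htop h2 (fun e => hne (by rw [← h1, e]))
  rw [← h1, dot_mex, dot_mex]
  omega

end lp

section tor

variable {s : ℕ}

/-- the homogeneous coordinates -/
def cv (z : Fin (s + 1) → (Fin s → ℝ) → ℂ) (i : Fin (s + 2)) (θ : Fin s → ℝ) : ℂ :=
  Fin.cases 1 (fun l => z l θ) i

theorem cv_zero (z : Fin (s + 1) → (Fin s → ℝ) → ℂ) : cv z 0 = fun _ => 1 := rfl

theorem cv_succ (z : Fin (s + 1) → (Fin s → ℝ) → ℂ) (l : Fin (s + 1)) : cv z l.succ = z l := rfl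

theorem good_cv {z : Fin (s + 1) → (Fin s → ℝ) → ℂ} (hz : ∀ i, Good (z i)) (i : Fin (s + 2)) :
    Good (cv z i) := by
  refine Fin.cases ?_ (fun l => ?_) i
  · exact good_const one_ne_zero
  · exact hz l

theorem per_cv {z : Fin (s + 1) → (Fin s → ℝ) → ℂ} (hz : ∀ i, Per (z i)) (i : Fin (s + 2)) :
    Per (cv z i) := by
  refine Fin.cases ?_ (fun l => ?_) i
  · exact per_const 1
  · exact hz l

/-- evaluation of the Laurent polynomial -/
theorem eval_WP (P : Matrix (Fin (s + 2)) (Fin (s + 2)) ℂ) {z : Fin (s + 1) → (Fin s → ℝ) → ℂ}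
    (hz : ∀ i, Good (z i)) (θ : Fin s → ℝ) :
    (∑ m ∈ (WP P).coeff.support, RingHom.id ℂ ((WP P).coeff m) * ∏ i, z i θ ^ (m i)) *
      ∏ i, z i θ = ∏ j, ∑ i, P j i * cv z i θ := by
  set u : Fin (s + 2) → ℂˣ := fun i => Units.mk0 (cv z i θ) ((good_cv hz i).ne_zero θ) with hu
  have hu0 : u 0 = 1 := by
    apply Units.ext
    rfl
  set w : Fin (s + 1) → ℂˣ := fun l => u l.succ / u 0 with hw
  have hwl : ∀ l, ((w l : ℂˣ) : ℂ) = z l θ := by
    intro l
    rw [hw]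
    simp only
    rw [hu0, div_one]
    rfl
  have h1 : ∀ m : Fin (s + 1) → ℤ, ((mon w m : ℂˣ) : ℂ) = ∏ i, z i θ ^ (m i) := by
    intro m
    unfold mon
    rw [Units.coe_prod]
    refine Finset.prod_congr rfl fun i _ => ?_
    rw [Units.val_zpow_eq_zpow_val, hwl]
  have h2 : ∑ m ∈ (WP P).coeff.support, RingHom.id ℂ ((WP P).coeff m) * ∏ i, z i θ ^ (m i) =
      lev (RingHom.id ℂ) w (WP P) := by
    rw [lev_eq]
    simp only [h1]
  have h3 : ∀ i, ((mon w (E i) : ℂˣ) : ℂ) = cv z i θ := by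
    intro i
    rw [hw, Pool.Agent.K6.H95.SP.mon_E, hu0, div_one]
    rfl
  have h4 : ((mon w (-∑ i : Fin (s + 2), E i) : ℂˣ) : ℂ) * ∏ i, z i θ = 1 := by
    have h5 : ∀ t : Finset (Fin (s + 2)), mon w (∑ i ∈ t, E i) = ∏ i ∈ t, u i := by
      intro t
      induction t using Finset.induction_on with
      | empty => simp [Pool.Agent.N65.TL.mon_zero]
      | insert i t hi ih =>
        rw [Finset.sum_insert hi, Finset.prod_insert hi, Pool.Agent.N65.TL.mon_add, ih, hw,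
          Pool.Agent.K6.H95.SP.mon_E, hu0, div_one]
    rw [Pool.Agent.N65.TL.mon_neg, h5, Fin.prod_univ_succ, hu0, one_mul, Units.val_inv_eq_inv_val,
      Units.coe_prod]
    have h6 : ∏ i : Fin (s + 1), ((u i.succ : ℂˣ) : ℂ) = ∏ i, z i θ := rfl
    rw [h6]
    exact inv_mul_cancel₀ (Finset.prod_ne_zero_iff.2 fun i _ => (hz i).ne_zero θ)
  rw [h2]
  unfold WP
  rw [map_mul, map_prod, lev_single, map_one, one_mul, mul_assoc, h4, mul_one]
  refine Finset.prod_congr rfl fun j _ => ?_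
  rw [map_sum]
  refine Finset.sum_congr rfl fun i _ => ?_
  rw [lev_single, h3]
  rfl

/-- Tori near the degenerate fibre. -/
theorem exists_tor {P : Matrix (Fin (s + 2)) (Fin (s + 2)) ℂ} {top : Fin (s + 2) → Fin (s + 2)}
    (htop : ∀ j, P j (top j) ≠ 0 ∧ ∀ i, P j i ≠ 0 → i ≤ top j)
    (hpos : ∑ i : Fin (s + 2), (i : ℤ) < ∑ j, (top j : ℤ)) :
    ∃ (k : ℝ) (Z : Matrix (Fin (s + 1)) (Fin (s + 1)) ℝ), 0 < k ∧
      (∀ i, Z i 0 = ((i : ℝ) + 1) / k) ∧ Z.det ≠ 0 ∧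
      ∀ δ : ℝ, 0 < δ → ∃ R : ℝ, 1 ≤ R ∧ ∀ t : ℂ, R ≤ ‖t‖ →
        ∃ z : Fin (s + 1) → (Fin s → ℝ) → ℂ, (∀ i, Good (z i)) ∧ (∀ i, Per (z i)) ∧
          (∀ i θ, |Real.log ‖z i θ‖ / Real.log ‖t‖ - Z i 0| < δ) ∧
          (∀ i j θ, ‖lw (z i) j θ - 2 * Real.pi * Complex.I * Z i j.succ‖ < δ) ∧
          ∀ θ, ∏ j, ∑ i, P j i * cv z i θ = t * ∏ i, z i θ := by
  have hdot : 0 < dot (al s) (mex top) := by
    rw [dot_mex]
    omega
  obtain ⟨i0, hi0⟩ : ∃ i0, mex top i0 ≠ 0 := by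
    by_contra hcon
    push Not at hcon
    have h1 : mex top = 0 := funext hcon
    rw [h1] at hdot
    unfold dot at hdot
    simp at hdot
  set k : ℕ := (dot (al s) (mex top)).toNat with hk
  have hkz : (k : ℤ) = dot (al s) (mex top) := Int.toNat_of_nonneg hdot.le
  have hk0 : 0 < k := by omega
  have hkR : (0 : ℝ) < k := by exact_mod_cast hk0
  have hkzR : ((dot (al s) (mex top) : ℤ) : ℝ) = k := by
    rw [← hkz]
    simp
  refine ⟨k, zmat (al s) (mex top) i0, hkR, fun i => ?_, det_zmat hdot hi0, fun δ hδ => ?_⟩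
  · show ((al s i : ℤ) : ℝ) / ((dot (al s) (mex top) : ℤ) : ℝ) = _
    rw [hkzR]
    unfold al
    push_cast
    rfl
  obtain ⟨R, hR1, hR⟩ := exists_z (RingHom.id ℂ) (coeff_top_ne htop) hdot
    (fun m hm hne => dot_lt htop hm hne) i0 (B := 0) (δ := δ / 2) le_rfl (by linarith)
  set cw : ℂ := (WP P).coeff (mex top) with hcw
  have hcw0 : cw ≠ 0 := coeff_top_ne htop
  set A : ℝ := ∑ i, |((al s i : ℤ) : ℝ)| with hA
  have hA0 : 0 ≤ A := Finset.sum_nonneg fun i _ => abs_nonneg _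
  have hAi : ∀ i, |((al s i : ℤ) : ℝ)| ≤ A := fun i =>
    Finset.single_le_sum (f := fun i => |((al s i : ℤ) : ℝ)|) (fun i _ => abs_nonneg _)
      (Finset.mem_univ i)
  have hlogR : 0 ≤ Real.log R := Real.log_nonneg hR1
  set M : ℝ := (δ / 2 + A * |Real.log ‖cw‖|) / (δ / 2) + k * Real.log R + |Real.log ‖cw‖| + 1
    with hM
  have hM1 : 0 ≤ (δ / 2 + A * |Real.log ‖cw‖|) / (δ / 2) := by positivity
  have hM2 : 0 ≤ k * Real.log R := by positivity
  have hM0 : 0 < M := by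
    have := abs_nonneg (Real.log ‖cw‖)
    linarith
  refine ⟨Real.exp M, Real.one_le_exp hM0.le, fun t ht => ?_⟩
  have htn : 0 < ‖t‖ := (Real.exp_pos M).trans_le ht
  have ht0 : t ≠ 0 := norm_pos_iff.1 htn
  have hLM : M ≤ Real.log ‖t‖ := by rwa [Real.le_log_iff_exp_le htn]
  have hL0 : 0 < Real.log ‖t‖ := hM0.trans_le hLM
  obtain ⟨κ, hκ⟩ := IsAlgClosed.exists_pow_nat_eq (t / cw) hk0
  have hκ0 : κ ≠ 0 := by
    rintro rfl
    rw [zero_pow hk0.ne'] at hκ
    exact (div_ne_zero ht0 hcw0) hκ.symm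
  have hlogκ : Real.log ‖κ‖ = (Real.log ‖t‖ - Real.log ‖cw‖) / k := by
    have h1 : (k : ℝ) * Real.log ‖κ‖ = Real.log ‖t‖ - Real.log ‖cw‖ := by
      rw [← Real.log_pow, ← norm_pow, hκ, norm_div, Real.log_div htn.ne'
        (norm_ne_zero_iff.2 hcw0)]
    rw [← h1]
    field_simp
  have hκR : R ≤ ‖κ‖ := by
    refine (Real.log_le_log_iff (by linarith) (norm_pos_iff.2 hκ0)).1 ?_
    rw [hlogκ, le_div_iff₀ hkR]
    have := neg_abs_le (Real.log ‖cw‖)
    have := le_abs_self (Real.log ‖cw‖)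
    linarith
  obtain ⟨z, hz1, hz2, hz3, hz4, hz5⟩ := hR s (fun l => l) (fun _ => κ) (good_const hκ0)
    (per_const κ) (fun _ => hκR) (fun j θ => by rw [lw_const, norm_zero])
  refine ⟨z, hz1, hz2, fun i θ => ?_, fun i j θ => ?_, fun θ => ?_⟩
  · have h1 := hz3 i θ
    have h2 : Real.log ‖z i θ‖ / Real.log ‖t‖ - zmat (al s) (mex top) i0 i 0 =
        ((Real.log ‖z i θ‖ - (al s i : ℤ) * Real.log ‖κ‖) +
          (al s i : ℤ) * (-(Real.log ‖cw‖ / k))) / Real.log ‖t‖ := by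
      have h3 : zmat (al s) (mex top) i0 i 0 = ((al s i : ℤ) : ℝ) / k := by
        rw [← hkzR]
        rfl
      rw [h3, hlogκ]
      field_simp
      ring
    rw [h2, abs_div, abs_of_pos hL0, div_lt_iff₀ hL0]
    refine lt_of_le_of_lt (abs_add_le _ _) ?_
    rw [abs_mul, abs_neg, abs_div, abs_of_pos hkR]
    have h4 : |((al s i : ℤ) : ℝ)| * (|Real.log ‖cw‖| / k) ≤ A * |Real.log ‖cw‖| := by
      refine mul_le_mul (hAi i) ?_ (by positivity) hA0
      exact div_le_self (abs_nonneg _) (by exact_mod_cast hk0)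
    have h5 : (δ / 2 + A * |Real.log ‖cw‖|) / (δ / 2) < Real.log ‖t‖ := by
      have := abs_nonneg (Real.log ‖cw‖)
      linarith
    rw [div_lt_iff₀ (by linarith)] at h5
    calc _ ≤ δ / 2 + A * |Real.log ‖cw‖| := add_le_add h1 h4
      _ < Real.log ‖t‖ * (δ / 2) := h5
      _ ≤ δ * Real.log ‖t‖ := by nlinarith
  · have h1 := hz4 i j θ
    have h2 : (2 * Real.pi * Complex.I * ((zmat (al s) (mex top) i0 i j.succ : ℝ) : ℂ) : ℂ) =
        (al s i : ℤ) * lw (fun _ => κ) j θ + 2 * Real.pi * Complex.I *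
          ∑ l, if j = l then (bdir (mex top) i0 l i : ℂ) else 0 := by
      rw [lw_const, mul_zero, zero_add, Finset.sum_ite_eq, if_pos (Finset.mem_univ _)]
      congr 1
    rw [h2]
    linarith
  · have h1 := hz5 θ
    rw [← eval_WP P hz1 θ, h1]
    have h2 : (RingHom.id ℂ) ((WP P).coeff (mex top)) * (fun _ => κ) θ ^
        (dot (al s) (mex top)).toNat = t := by
      show cw * κ ^ k = t
      rw [hκ]
      field_simp
    rw [h2]

end tor

end Pool.Agent.K6.H95.SP
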